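import Pool.Agent.helper85.BVP.Dual

/-!
# The multiplicative large sieve
-/

namespace Pool.Agent.helper85.MT

open Finset Real Pool.Agent.helper85.BVP

section
variable (r : ℕ) [NeZero r]

lemma norm_std (b : ZMod r) : ‖(ZMod.stdAddChar b : ℂ)‖ = 1 := by
  rw [ZMod.stdAddChar_apply]
  exact Circle.norm_coe _

lemma conj_std (b : ZMod r) : (starRingEnd ℂ) (ZMod.stdAddChar b : ℂ) = ZMod.stdAddChar (-b) := by
  rw [AddChar.map_neg_eq_inv, Complex.inv_eq_conj (norm_std r b)]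

/-- Parseval for the additive characters mod `r`. -/
lemma add_parseval (f : ZMod r → ℂ) :
    ∑ b : ZMod r, ‖∑ a : ZMod r, f a * ZMod.stdAddChar (b * a)‖ ^ 2 = r * ∑ a : ZMod r, ‖f a‖ ^ 2 := by
  have h1 : ((∑ b : ZMod r, ‖∑ a : ZMod r, f a * ZMod.stdAddChar (b * a)‖ ^ 2 : ℝ) : ℂ)
      = ∑ a : ZMod r, ∑ a' : ZMod r, f a * (starRingEnd ℂ) (f a')
        * ∑ b : ZMod r, (ZMod.stdAddChar (b * (a - a')) : ℂ) := by
    push_cast
    have h2 : ∀ b : ZMod r, ((‖∑ a : ZMod r, f a * ZMod.stdAddChar (b * a)‖ : ℂ)) ^ 2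
        = ∑ a : ZMod r, ∑ a' : ZMod r, f a * (starRingEnd ℂ) (f a')
          * (ZMod.stdAddChar (b * (a - a')) : ℂ) := by
      intro b
      rw [← Complex.ofReal_pow, ← Complex.normSq_eq_norm_sq, ← Complex.mul_conj, map_sum,
        sum_mul_sum]
      refine sum_congr rfl fun a _ => sum_congr rfl fun a' _ => ?_
      rw [RingHom.map_mul, conj_std, mul_sub, sub_eq_add_neg, AddChar.map_add_eq_mul]
      ring
    simp_rw [h2]
    rw [sum_comm]
    refine sum_congr rfl fun a _ => ?_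
    rw [sum_comm]
    refine sum_congr rfl fun a' _ => ?_
    rw [mul_sum]
  have h3 : ∑ a : ZMod r, ∑ a' : ZMod r, f a * (starRingEnd ℂ) (f a')
        * ∑ b : ZMod r, (ZMod.stdAddChar (b * (a - a')) : ℂ)
      = ((r * ∑ a : ZMod r, ‖f a‖ ^ 2 : ℝ) : ℂ) := by
    push_cast
    rw [mul_sum]
    refine sum_congr rfl fun a _ => ?_
    have h4 : ∀ a' : ZMod r, f a * (starRingEnd ℂ) (f a')
        * ∑ b : ZMod r, (ZMod.stdAddChar (b * (a - a')) : ℂ)
        = if a = a' then f a * (starRingEnd ℂ) (f a') * r else 0 := by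
      intro a'
      rw [AddChar.sum_mulShift _ (ZMod.isPrimitive_stdAddChar r)]
      by_cases h : a = a'
      · rw [if_pos h, if_pos (sub_eq_zero.mpr h), ZMod.card]
      · rw [if_neg h, if_neg (sub_ne_zero.mpr h), Nat.cast_zero, mul_zero]
    simp_rw [h4]
    rw [sum_ite_eq univ a, if_pos (mem_univ a), Complex.mul_conj, Complex.normSq_eq_norm_sq]
    push_cast
    ring
  rw [h3] at h1
  exact_mod_cast h1

open Classical in
lemma norm_char_sq (χ : DirichletCharacter ℂ r) (a : ZMod r) :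
    ‖χ a‖ ^ 2 = if IsUnit a then 1 else 0 := by
  split_ifs with h
  · obtain ⟨u, rfl⟩ := h
    rw [χ.unit_norm_eq_one, one_pow]
  · rw [MulChar.map_nonunit χ h]
    simp

open Classical in
lemma sum_unit_one : ∑ a : ZMod r, (if IsUnit a then (1 : ℝ) else 0) = Nat.totient r := by
  have h := MulChar.sum_one_eq_card_units (R := ZMod r) (R' := ℝ)
  rw [ZMod.card_units_eq_totient] at h
  rw [← h]
  refine sum_congr rfl fun a _ => ?_
  split_ifs with ha
  · rw [MulChar.one_apply ha]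
  · rw [MulChar.map_nonunit _ ha]

/-- the norm of the Gauss sum of a primitive character. -/
lemma norm_gaussSum_sq (χ : DirichletCharacter ℂ r) (hχ : χ.IsPrimitive) :
    ‖gaussSum χ (ZMod.stdAddChar : AddChar (ZMod r) ℂ)‖ ^ 2 = r := by
  classical
  have h1 := add_parseval r (fun a => χ a)
  have h2 : ∀ b : ZMod r, ∑ a : ZMod r, χ a * ZMod.stdAddChar (b * a)
      = χ⁻¹ b * gaussSum χ (ZMod.stdAddChar : AddChar (ZMod r) ℂ) := by
    intro b
    rw [← gaussSum_mulShift_of_isPrimitive (ZMod.stdAddChar : AddChar (ZMod r) ℂ) hχ b]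
    rfl
  simp_rw [h2, norm_mul, mul_pow, norm_char_sq] at h1
  rw [← sum_mul, sum_unit_one] at h1
  have h3 : (0 : ℝ) < Nat.totient r := by
    exact_mod_cast Nat.totient_pos.mpr (Nat.pos_of_ne_zero (NeZero.ne r))
  have h4 : (Nat.totient r : ℝ) * ‖gaussSum χ (ZMod.stdAddChar : AddChar (ZMod r) ℂ)‖ ^ 2
      = Nat.totient r * r := by rw [h1]; ring
  exact mul_left_cancel₀ h3.ne' h4

open Classical in
/-- Parseval for the multiplicative characters mod `r`. -/
lemma mul_parseval (f : ZMod r → ℂ) :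
    ∑ χ : DirichletCharacter ℂ r, ‖∑ a : ZMod r, χ a * f a‖ ^ 2
      = Nat.totient r * ∑ a : ZMod r, (if IsUnit a then ‖f a‖ ^ 2 else 0) := by
  have h1 : ((∑ χ : DirichletCharacter ℂ r, ‖∑ a : ZMod r, χ a * f a‖ ^ 2 : ℝ) : ℂ)
      = ∑ a : ZMod r, ∑ a' : ZMod r, f a * (starRingEnd ℂ) (f a')
        * ∑ χ : DirichletCharacter ℂ r, χ a * (starRingEnd ℂ) (χ a') := by
    push_cast
    have h2 : ∀ χ : DirichletCharacter ℂ r, ((‖∑ a : ZMod r, χ a * f a‖ : ℂ)) ^ 2
        = ∑ a : ZMod r, ∑ a' : ZMod r, f a * (starRingEnd ℂ) (f a')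
          * (χ a * (starRingEnd ℂ) (χ a')) := by
      intro χ
      rw [← Complex.ofReal_pow, ← Complex.normSq_eq_norm_sq, ← Complex.mul_conj, map_sum,
        sum_mul_sum]
      refine sum_congr rfl fun a _ => sum_congr rfl fun a' _ => ?_
      rw [RingHom.map_mul]
      ring
    simp_rw [h2]
    rw [sum_comm]
    refine sum_congr rfl fun a _ => ?_
    rw [sum_comm]
    refine sum_congr rfl fun a' _ => ?_
    rw [mul_sum]
  have h3 : ∑ a : ZMod r, ∑ a' : ZMod r, f a * (starRingEnd ℂ) (f a')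
        * ∑ χ : DirichletCharacter ℂ r, χ a * (starRingEnd ℂ) (χ a')
      = ((Nat.totient r * ∑ a : ZMod r, (if IsUnit a then ‖f a‖ ^ 2 else 0) : ℝ) : ℂ) := by
    push_cast
    rw [mul_sum, sum_comm]
    refine sum_congr rfl fun a' _ => ?_
    by_cases ha : IsUnit a'
    · have h4 : ∀ a : ZMod r, f a * (starRingEnd ℂ) (f a')
          * ∑ χ : DirichletCharacter ℂ r, χ a * (starRingEnd ℂ) (χ a')
          = if a = a' then f a * (starRingEnd ℂ) (f a') * (Nat.totient r : ℂ) else 0 := by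
        intro a
        have h5 : ∑ χ : DirichletCharacter ℂ r, χ a * (starRingEnd ℂ) (χ a')
            = ∑ χ : DirichletCharacter ℂ r, χ a'⁻¹ * χ a := by
          refine sum_congr rfl fun χ _ => ?_
          rw [mul_comm]
          congr 1
          have h6 : (starRingEnd ℂ) (χ a') = χ⁻¹ a' := MulChar.star_apply' χ a'
          rw [h6, MulChar.inv_apply]
          obtain ⟨u, hu⟩ := ha
          rw [← hu, Ring.inverse_unit, ZMod.inv_coe_unit]
        rw [h5, DirichletCharacter.sum_char_inv_mul_char_eq ℂ ha a]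
        by_cases h : a = a'
        · rw [if_pos h, if_pos h.symm]
        · rw [if_neg h, if_neg (fun h' => h h'.symm), mul_zero]
      simp_rw [h4]
      rw [sum_ite_eq' univ a', if_pos (mem_univ a'), if_pos ha, Complex.mul_conj,
        Complex.normSq_eq_norm_sq]
      push_cast
      ring
    · rw [if_neg ha]
      simp only [Complex.ofReal_zero, mul_zero]
      refine sum_eq_zero fun a _ => ?_
      have h5 : ∑ χ : DirichletCharacter ℂ r, χ a * (starRingEnd ℂ) (χ a') = 0 := by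
        refine sum_eq_zero fun χ _ => ?_
        rw [MulChar.map_nonunit χ ha, map_zero, mul_zero]
      rw [h5, mul_zero]
  rw [h3] at h1
  exact_mod_cast h1

open Classical in
/-- one modulus: from primitive characters to additive characters. -/
lemma prim_le (S : Finset ℕ) (a : ℕ → ℂ) :
    (r : ℝ) / Nat.totient r * ∑ χ : DirichletCharacter ℂ r with χ.IsPrimitive,
        ‖∑ n ∈ S, a n * χ n‖ ^ 2
      ≤ ∑ b : ZMod r, (if IsUnit b then ‖∑ n ∈ S, a n * ZMod.stdAddChar ((b : ZMod r) * (n : ZMod r))‖ ^ 2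
          else 0) := by
  have hr : (0 : ℝ) < r := by exact_mod_cast Nat.pos_of_ne_zero (NeZero.ne r)
  have hφ : (0 : ℝ) < Nat.totient r := by
    exact_mod_cast Nat.totient_pos.mpr (Nat.pos_of_ne_zero (NeZero.ne r))
  set f : ZMod r → ℂ := fun b => ∑ n ∈ S, a n * ZMod.stdAddChar ((b : ZMod r) * (n : ZMod r)) with hf
  have h1 : ∀ χ : DirichletCharacter ℂ r, χ.IsPrimitive →
      (r : ℝ) * ‖∑ n ∈ S, a n * χ n‖ ^ 2 = ‖∑ b : ZMod r, χ⁻¹ b * f b‖ ^ 2 := by
    intro χ hχ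
    have hχi : (χ⁻¹).IsPrimitive := by
      rw [DirichletCharacter.isPrimitive_def, DirichletCharacter.conductor_inv]
      exact hχ
    have h2 : ∑ b : ZMod r, χ⁻¹ b * f b
        = gaussSum χ⁻¹ (ZMod.stdAddChar : AddChar (ZMod r) ℂ) * ∑ n ∈ S, a n * χ n := by
      simp only [hf, mul_sum]
      rw [sum_comm]
      refine sum_congr rfl fun n _ => ?_
      have h3 : ∑ b : ZMod r, χ⁻¹ b * (a n * ZMod.stdAddChar ((b : ZMod r) * (n : ZMod r)))
          = a n * gaussSum χ⁻¹ ((ZMod.stdAddChar : AddChar (ZMod r) ℂ).mulShift (n : ZMod r)) := by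
        rw [gaussSum, mul_sum]
        refine sum_congr rfl fun b _ => ?_
        rw [AddChar.mulShift_apply, mul_comm (n : ZMod r) b]
        ring
      rw [h3, gaussSum_mulShift_of_isPrimitive _ hχi, inv_inv]
      ring
    rw [h2, norm_mul, mul_pow, norm_gaussSum_sq r _ hχi]
  have h2 : (r : ℝ) * ∑ χ : DirichletCharacter ℂ r with χ.IsPrimitive, ‖∑ n ∈ S, a n * χ n‖ ^ 2
      ≤ Nat.totient r * ∑ b : ZMod r, (if IsUnit b then ‖f b‖ ^ 2 else 0) := by
    rw [← mul_parseval, mul_sum]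
    have h3 : ∑ χ : DirichletCharacter ℂ r with χ.IsPrimitive, (r : ℝ) * ‖∑ n ∈ S, a n * χ n‖ ^ 2
        = ∑ χ : DirichletCharacter ℂ r with χ.IsPrimitive, ‖∑ b : ZMod r, χ⁻¹ b * f b‖ ^ 2 := by
      refine sum_congr rfl fun χ hχ => ?_
      exact h1 χ (mem_filter.mp hχ).2
    rw [h3]
    refine (sum_le_sum_of_subset_of_nonneg (filter_subset _ _) (fun _ _ _ => sq_nonneg _)).trans ?_
    refine le_of_eq ?_
    exact Fintype.sum_equiv (Equiv.inv _) _ _ (fun χ => rfl)
  rw [div_mul_eq_mul_div, div_le_iff₀ hφ, mul_comm _ (Nat.totient r : ℝ)]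
  exact h2

end

/-- Farey fractions of order `R`, as pairs (denominator, numerator). -/
def farey (R : ℕ) : Finset (ℕ × ℕ) :=
  {p ∈ Icc 1 R ×ˢ range R | p.2 < p.1 ∧ Nat.Coprime p.2 p.1}

lemma farey_spacing (R : ℕ) (p p' : ℕ × ℕ) (hp : p ∈ farey R) (hp' : p' ∈ farey R) (hne : p ≠ p') :
    1 / (R : ℝ) ^ 2 ≤ |sd ((p.2 : ℝ) / p.1 - (p'.2 : ℝ) / p'.1)| := by
  obtain ⟨r, b⟩ := p
  obtain ⟨r', b'⟩ := p'
  rw [farey, mem_filter, mem_product, mem_Icc] at hp hp'
  simp only at hp hp' ⊢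
  obtain ⟨⟨⟨hr1, hrR⟩, _⟩, hbr, hcop⟩ := hp
  obtain ⟨⟨⟨hr1', hrR'⟩, _⟩, hbr', hcop'⟩ := hp'
  have hr0 : (0 : ℝ) < r := by exact_mod_cast hr1
  have hr0' : (0 : ℝ) < r' := by exact_mod_cast hr1'
  set m : ℤ := round ((b : ℝ) / r - (b' : ℝ) / r') with hm
  have e : sd ((b : ℝ) / r - (b' : ℝ) / r')
      = (((b * r' - b' * r - m * (r * r') : ℤ)) : ℝ) / (r * r') := by
    rw [sd, ← hm]
    push_cast
    field_simp
  have hz : (b * r' - b' * r - m * (r * r') : ℤ) ≠ 0 := by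
    intro h0
    have h1 : sd ((b : ℝ) / r - (b' : ℝ) / r') = 0 := by rw [e, h0]; simp
    rw [sd, sub_eq_zero, ← hm] at h1
    have hb1 : (b : ℝ) / r < 1 := by rw [div_lt_one hr0]; exact_mod_cast hbr
    have hb1' : (b' : ℝ) / r' < 1 := by rw [div_lt_one hr0']; exact_mod_cast hbr'
    have hb0 : (0 : ℝ) ≤ (b : ℝ) / r := by positivity
    have hb0' : (0 : ℝ) ≤ (b' : ℝ) / r' := by positivity
    have hm1 : (m : ℝ) < 1 := by rw [← h1]; linarith
    have hm2 : (-1 : ℝ) < m := by rw [← h1]; linarith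
    have hm0 : m = 0 := by
      have h2 : m < 1 := by exact_mod_cast hm1
      have h3 : -1 < m := by exact_mod_cast hm2
      omega
    rw [hm0, zero_mul, sub_zero, sub_eq_zero] at h0
    have h2 : b * r' = b' * r := by exact_mod_cast h0
    have h3 : r ∣ r' := by
      have : r ∣ b * r' := ⟨b', by rw [h2, mul_comm]⟩
      exact hcop.symm.dvd_of_dvd_mul_left this
    have h4 : r' ∣ r := by
      have : r' ∣ b' * r := ⟨b, by rw [← h2, mul_comm]⟩
      exact hcop'.symm.dvd_of_dvd_mul_left this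
    have h5 : r = r' := Nat.dvd_antisymm h3 h4
    subst h5
    have h6 : b = b' := Nat.eq_of_mul_eq_mul_right (by omega) h2
    exact hne (by rw [h6])
  rw [e, abs_div, abs_of_pos (by positivity : (0 : ℝ) < r * r')]
  have h1 : (1 : ℝ) ≤ |(((b * r' - b' * r - m * (r * r') : ℤ)) : ℝ)| := by
    rw [← Int.cast_abs]
    exact_mod_cast Int.one_le_abs hz
  have h2 : (r : ℝ) * r' ≤ R ^ 2 := by
    have a1 : (r : ℝ) ≤ R := by exact_mod_cast hrR
    have a2 : (r' : ℝ) ≤ R := by exact_mod_cast hrR'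
    nlinarith
  rw [div_le_div_iff₀ (lt_of_lt_of_le (by positivity) h2) (by positivity)]
  nlinarith

/-- the additive large sieve for Farey fractions. -/
lemma farey_sieve (R M N : ℕ) (hR : 1 ≤ R) (a : ℕ → ℂ) :
    ∑ p ∈ farey R, ‖∑ n ∈ Ioc M (M + N), a n * ex ((n : ℝ) * ((p.2 : ℝ) / p.1))‖ ^ 2
      ≤ 5 * ((N : ℝ) + R ^ 2) * ∑ n ∈ Ioc M (M + N), ‖a n‖ ^ 2 := by
  set L := N + R ^ 2 with hL
  have hLpos : 0 < L := by positivity
  have hLr : (0 : ℝ) < L := by exact_mod_cast hLpos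
  have hRr : (0 : ℝ) < R := by exact_mod_cast hR
  set a' : ℕ → ℂ := fun n => if n < N then a (M + 1 + n) else 0 with ha'
  have h := additive (farey R) (fun p => (p.2 : ℝ) / p.1) (1 / (R : ℝ) ^ 2) (by positivity)
    (fun p hp p' hp' hne => farey_spacing R p p' hp hp' hne) a' ((M : ℤ) + 1) L hLpos
  have hsub : range N ⊆ range (2 * L) := range_subset_range.mpr (by omega)
  have e1 : ∀ x : ℝ, ∑ n ∈ range (2 * L), a' n * ex ((((M : ℤ) + 1 + n : ℤ) : ℝ) * x)
      = ∑ n ∈ Ioc M (M + N), a n * ex ((n : ℝ) * x) := by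
    intro x
    rw [← sum_subset hsub (fun n _ hn => by
      rw [mem_range] at hn
      simp only [ha', if_neg hn, zero_mul])]
    rw [show Ioc M (M + N) = (range N).map (addLeftEmbedding (M + 1)) by
      rw [range_eq_Ico, map_add_left_Ico]
      ext n
      rw [mem_Ioc, mem_Ico]
      omega]
    rw [sum_map]
    refine sum_congr rfl fun n hn => ?_
    rw [mem_range] at hn
    simp only [ha', if_pos hn, addLeftEmbedding_apply]
    push_cast
    rfl
  have e2 : ∑ n ∈ range (2 * L), ‖a' n‖ ^ 2 = ∑ n ∈ Ioc M (M + N), ‖a n‖ ^ 2 := by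
    rw [← sum_subset hsub (fun n _ hn => by
      rw [mem_range] at hn
      simp only [ha', if_neg hn, norm_zero]
      norm_num)]
    rw [show Ioc M (M + N) = (range N).map (addLeftEmbedding (M + 1)) by
      rw [range_eq_Ico, map_add_left_Ico]
      ext n
      rw [mem_Ioc, mem_Ico]
      omega]
    rw [sum_map]
    refine sum_congr rfl fun n hn => ?_
    rw [mem_range] at hn
    simp only [ha', if_pos hn, addLeftEmbedding_apply]
  rw [e2] at h
  simp_rw [e1] at h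
  set T := ∑ p ∈ farey R, ‖∑ n ∈ Ioc M (M + N), a n * ex ((n : ℝ) * ((p.2 : ℝ) / p.1))‖ ^ 2 with hT
  set A := ∑ n ∈ Ioc M (M + N), ‖a n‖ ^ 2 with hA
  have hA0 : 0 ≤ A := sum_nonneg fun _ _ => sq_nonneg _
  have h2 : 4 * (L : ℝ) ^ 2 + 1 / (1 / (R : ℝ) ^ 2) ^ 2 ≤ L * (5 * L) := by
    have h3 : (R : ℝ) ^ 2 ≤ L := by
      rw [hL]
      push_cast
      have : (0 : ℝ) ≤ N := Nat.cast_nonneg N
      linarith
    have h4 : 1 / (1 / (R : ℝ) ^ 2) ^ 2 = ((R : ℝ) ^ 2) ^ 2 := by field_simp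
    rw [h4]
    have h5 : ((R : ℝ) ^ 2) ^ 2 ≤ (L : ℝ) ^ 2 := pow_le_pow_left₀ (by positivity) h3 2
    nlinarith
  have h6 : (L : ℝ) * T ≤ L * (5 * L * A) := by
    refine h.trans ?_
    calc _ ≤ (L * (5 * (L : ℝ))) * A := mul_le_mul_of_nonneg_right h2 hA0
      _ = _ := by ring
  have h7 := le_of_mul_le_mul_left h6 hLr
  rw [hL] at h7
  push_cast at h7
  exact h7

open Classical in
/-- a sum over the units of `ZMod r` as a sum over the reduced residues. -/
lemma sum_units_eq (r : ℕ) [NeZero r] (F : ZMod r → ℝ) :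
    ∑ b : ZMod r, (if IsUnit b then F b else 0)
      = ∑ b ∈ (range r).filter (fun b => Nat.Coprime b r), F (b : ZMod r) := by
  rw [sum_filter]
  have h1 : ∑ b ∈ range r, (if Nat.Coprime b r then F (b : ZMod r) else 0)
      = ∑ b ∈ range r, (fun x : ZMod r => if IsUnit x then F x else 0) (b : ZMod r) := by
    refine sum_congr rfl fun b _ => ?_
    simp only [ZMod.isUnit_iff_coprime]
  rw [h1]
  symm
  refine sum_bij (fun b _ => (b : ZMod r)) (fun _ _ => mem_univ _) ?_ ?_ (fun _ _ => rfl)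
  · intro b hb b' hb' h
    rw [mem_range] at hb hb'
    have := (ZMod.natCast_eq_natCast_iff' b b' r).mp h
    rwa [Nat.mod_eq_of_lt hb, Nat.mod_eq_of_lt hb'] at this
  · intro x _
    exact ⟨x.val, mem_range.mpr (ZMod.val_lt x), ZMod.natCast_zmod_val x⟩

lemma std_eq_ex (r : ℕ) [NeZero r] (b n : ℕ) :
    (ZMod.stdAddChar ((b : ZMod r) * (n : ZMod r)) : ℂ) = ex ((n : ℝ) * ((b : ℝ) / r)) := by
  have h1 : ((b : ZMod r) * (n : ZMod r)) = ((b * n : ℤ) : ZMod r) := by push_cast; rfl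
  rw [h1, ZMod.stdAddChar_coe, ex]
  congr 1
  push_cast
  ring

open Classical in
/-- **The multiplicative large sieve.** -/
theorem mult_large_sieve (R M N : ℕ) (a : ℕ → ℂ) :
    ∑ r ∈ Icc 1 R, (r : ℝ) / Nat.totient r * ∑ χ : DirichletCharacter ℂ r with χ.IsPrimitive,
        ‖∑ n ∈ Ioc M (M + N), a n * χ n‖ ^ 2
      ≤ 5 * ((N : ℝ) + R ^ 2) * ∑ n ∈ Ioc M (M + N), ‖a n‖ ^ 2 := by
  rcases Nat.eq_zero_or_pos R with hR | hR
  · subst hR
    simp only [show Icc 1 0 = (∅ : Finset ℕ) from rfl, sum_empty]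
    positivity
  refine le_trans ?_ (farey_sieve R M N hR a)
  have h1 : ∀ r ∈ Icc 1 R, (r : ℝ) / Nat.totient r
      * ∑ χ : DirichletCharacter ℂ r with χ.IsPrimitive, ‖∑ n ∈ Ioc M (M + N), a n * χ n‖ ^ 2
      ≤ ∑ b ∈ (range r).filter (fun b => Nat.Coprime b r),
        ‖∑ n ∈ Ioc M (M + N), a n * ex ((n : ℝ) * ((b : ℝ) / r))‖ ^ 2 := by
    intro r hr
    rw [mem_Icc] at hr
    have : NeZero r := ⟨by omega⟩
    refine (prim_le r (Ioc M (M + N)) a).trans (le_of_eq ?_)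
    rw [sum_units_eq]
    refine sum_congr rfl fun b _ => ?_
    simp_rw [std_eq_ex]
  refine (sum_le_sum h1).trans (le_of_eq ?_)
  rw [farey, sum_filter, sum_product]
  refine sum_congr rfl fun r hr => ?_
  rw [mem_Icc] at hr
  rw [← sum_filter]
  refine sum_congr ?_ (fun _ _ => rfl)
  ext b
  rw [mem_filter, mem_filter, mem_range, mem_range]
  simp only
  constructor
  · rintro ⟨h2, h3⟩
    exact ⟨by omega, h2, h3⟩
  · rintro ⟨_, h2, h3⟩
    exact ⟨h2, h3⟩

end Pool.Agent.helper85.MT
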