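import Pool.Agent.helper39.MT.Defs

/-!
# The Fourier transform of the bump function
-/

namespace Pool.Agent.helper85.MT

open MeasureTheory FourierTransform Pool.Agent.helper39.MT

/-- Fourier inversion for `V`. -/
lemma V_fourier : ∃ Vh : ℝ → ℂ, Continuous Vh ∧ Integrable Vh ∧
    ∀ u : ℝ, (V u : ℂ) = ∫ ξ : ℝ, Complex.exp (2 * Real.pi * (ξ * u : ℝ) * Complex.I) * Vh ξ := by
  have h1 : HasCompactSupport (fun u : ℝ => (V u : ℂ)) := V_hasCompactSupport.comp_left (g := fun x : ℝ => (x : ℂ)) Complex.ofReal_zero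
  have h2 : ContDiff ℝ (⊤ : ℕ∞) (fun u : ℝ => (V u : ℂ)) := Complex.ofRealCLM.contDiff.comp V_contDiff
  set f : SchwartzMap ℝ ℂ := h1.toSchwartzMap h2 with hf
  refine ⟨fun ξ => (𝓕 f) ξ, (𝓕 f).continuous, (𝓕 f).integrable, ?_⟩
  intro u
  have h3 : 𝓕⁻ (𝓕 f) = f := FourierTransform.fourierInv_fourier_eq f
  have h4 : (V u : ℂ) = f u := rfl
  rw [h4]
  conv_lhs => rw [← h3]
  rw [SchwartzMap.fourierInv_coe, Real.fourierInv_eq']
  refine integral_congr_ae (Filter.Eventually.of_forall fun ξ => ?_)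
  simp only [smul_eq_mul]
  congr 2
  simp [mul_comm]

end Pool.Agent.helper85.MT
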