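import Pool.Agent.helper85.MT.Char1
import Pool.Agent.helper85.MT.Four

/-!
# Type I sums with logarithmic weights
-/

namespace Pool.Agent.helper85.MT

open Finset Real ArithmeticFunction Pool.Agent.helper85.BVP Pool.Agent.helper39.MT

/-- Abel summation with total variation. -/
lemma abel_tv (g : ℕ → ℝ) (κ : ℕ → ℂ) (B : ℝ) (hB : ∀ y, ‖∑ k ∈ Ioc 0 y, κ k‖ ≤ B) (y : ℕ)
    (hg : g (y + 1) = 0) :
    ‖∑ k ∈ Ioc 0 y, (g k : ℂ) * κ k‖ ≤ B * ∑ k ∈ Ioc 0 y, |g (k + 1) - g k| := by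
  have key : ∀ y : ℕ, ‖∑ k ∈ Ioc 0 y, (g k : ℂ) * κ k - (g (y + 1) : ℂ) * ∑ k ∈ Ioc 0 y, κ k‖
      ≤ B * ∑ k ∈ Ioc 0 y, |g (k + 1) - g k| := by
    intro y
    induction y with
    | zero => simp
    | succ y ih =>
      rw [sum_Ioc_succ_top (Nat.zero_le y) (fun k => (g k : ℂ) * κ k),
        sum_Ioc_succ_top (Nat.zero_le y) (fun k => |g (k + 1) - g k|)]
      have e : ∑ k ∈ Ioc 0 y, (g k : ℂ) * κ k + (g (y + 1) : ℂ) * κ (y + 1)
          - (g (y + 1 + 1) : ℂ) * ∑ k ∈ Ioc 0 (y + 1), κ k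
          = (∑ k ∈ Ioc 0 y, (g k : ℂ) * κ k - (g (y + 1) : ℂ) * ∑ k ∈ Ioc 0 y, κ k)
            - ((g (y + 1 + 1) - g (y + 1) : ℝ) : ℂ) * ∑ k ∈ Ioc 0 (y + 1), κ k := by
        rw [sum_Ioc_succ_top (Nat.zero_le y) κ]
        push_cast; ring
      rw [e]
      have h2 : ‖((g (y + 1 + 1) - g (y + 1) : ℝ) : ℂ) * ∑ k ∈ Ioc 0 (y + 1), κ k‖
          ≤ |g (y + 1 + 1) - g (y + 1)| * B := by
        rw [norm_mul, Complex.norm_real, Real.norm_eq_abs]
        exact mul_le_mul_of_nonneg_left (hB _) (abs_nonneg _)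
      calc _ ≤ ‖∑ k ∈ Ioc 0 y, (g k : ℂ) * κ k - (g (y + 1) : ℂ) * ∑ k ∈ Ioc 0 y, κ k‖
            + ‖((g (y + 1 + 1) - g (y + 1) : ℝ) : ℂ) * ∑ k ∈ Ioc 0 (y + 1), κ k‖ := norm_sub_le _ _
        _ ≤ B * ∑ k ∈ Ioc 0 y, |g (k + 1) - g k| + |g (y + 1 + 1) - g (y + 1)| * B :=
            add_le_add ih h2
        _ = _ := by ring
  have h1 := key y
  rwa [hg, Complex.ofReal_zero, zero_mul, sub_zero] at h1

lemma V_lip : ∃ K : ℝ, 0 ≤ K ∧ ∀ u v, |V u - V v| ≤ K * |u - v| := by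
  obtain ⟨C, hC⟩ := (V_contDiff.of_le (m := 1) (by simp)).lipschitzWith_of_hasCompactSupport
    V_hasCompactSupport one_ne_zero
  refine ⟨C, C.2, fun u v => ?_⟩
  have := hC.dist_le_mul u v
  rwa [Real.dist_eq, Real.dist_eq] at this

lemma wt_nonneg (L a : ℝ) (n : ℕ) : 0 ≤ wt L a n := div_nonneg (V_nonneg _) (Nat.cast_nonneg _)

lemma wt_le (L a : ℝ) (n : ℕ) : wt L a n ≤ 1 / n :=
  div_le_div_of_nonneg_right (V_le_one _) (Nat.cast_nonneg _)

lemma wt_left {L a : ℝ} (hL : 0 < L) {n : ℕ} (h : (n : ℝ) ≤ Real.exp (L / 2 + a)) : wt L a n = 0 := by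
  rcases Nat.eq_zero_or_pos n with rfl | hn
  · simp [wt]
  · have hn' : (0 : ℝ) < n := by exact_mod_cast hn
    rw [wt, V_eq_zero_left, zero_div]
    rw [div_le_iff₀ hL]
    have := (Real.log_le_iff_le_exp hn').mpr h
    linarith

lemma wt_right {L a : ℝ} (hL : 0 < L) {n : ℕ} (h : NN L a < n) : wt L a n = 0 := by
  have hn : 0 < n := by omega
  have hn' : (0 : ℝ) < n := by exact_mod_cast hn
  rw [wt, V_eq_zero_right, zero_div]
  rw [le_div_iff₀ hL]
  have h1 : Real.exp (L + a) < n := (Nat.floor_lt (Real.exp_pos _).le).mp h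
  have := (Real.lt_log_iff_exp_lt hn').mpr h1
  linarith

lemma wt_diff {K : ℝ} (hK0 : 0 ≤ K) (hK : ∀ u v, |V u - V v| ≤ K * |u - v|) {L a : ℝ} (hL : 1 ≤ L)
    {d k : ℕ} (hd : 0 < d) (hk : 0 < k) :
    |wt L a (d * (k + 1)) - wt L a (d * k)| ≤ (K + 1) / (d * (k : ℝ) ^ 2) := by
  have hd' : (0 : ℝ) < d := by exact_mod_cast hd
  have hk' : (0 : ℝ) < k := by exact_mod_cast hk
  have hL0 : 0 < L := by linarith
  unfold wt
  push_cast
  set v1 := V ((Real.log (d * (k + 1)) - a) / L) with hv1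
  set v0 := V ((Real.log (d * k) - a) / L) with hv0
  have h0 : 0 ≤ v0 := V_nonneg _
  have h0' : v0 ≤ 1 := V_le_one _
  have hlog : Real.log (d * (k + 1)) - Real.log (d * k) ≤ 1 / k := by
    rw [Real.log_mul hd'.ne' (by positivity), Real.log_mul hd'.ne' hk'.ne']
    have h1 : Real.log ((k + 1) / k) ≤ (k + 1) / k - 1 := Real.log_le_sub_one_of_pos (by positivity)
    rw [Real.log_div (by positivity) hk'.ne'] at h1
    have h2 : ((k : ℝ) + 1) / k - 1 = 1 / k := by field_simp; ring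
    linarith
  have hlog0 : 0 ≤ Real.log (d * (k + 1)) - Real.log (d * k) := by
    have := Real.log_le_log (by positivity : (0 : ℝ) < d * k)
      (by nlinarith : (d : ℝ) * k ≤ d * (k + 1))
    linarith
  have hv : |v1 - v0| ≤ K * (1 / k) := by
    have h1 := hK ((Real.log (d * (k + 1)) - a) / L) ((Real.log (d * k) - a) / L)
    rw [← hv1, ← hv0] at h1
    refine h1.trans (mul_le_mul_of_nonneg_left ?_ hK0)
    rw [← sub_div, sub_sub_sub_cancel_right, abs_div, abs_of_nonneg hlog0, abs_of_pos hL0]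
    refine (div_le_self hlog0 hL).trans hlog
  have e : v1 / (d * (k + 1)) - v0 / (d * k)
      = (v1 - v0) / (d * (k + 1)) - v0 * (1 / (d * k * (k + 1))) := by
    field_simp
    ring
  rw [e]
  have h1 : |(v1 - v0) / (d * (k + 1))| ≤ K / (d * (k : ℝ) ^ 2) := by
    rw [abs_div, abs_of_pos (by positivity : (0 : ℝ) < d * (k + 1))]
    calc |v1 - v0| / (d * (k + 1)) ≤ (K * (1 / k)) / (d * k) := by
          refine div_le_div₀ (by positivity) hv (by positivity) ?_
          nlinarith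
      _ = _ := by field_simp
  have h2 : |v0 * (1 / (d * k * (k + 1)))| ≤ 1 / (d * (k : ℝ) ^ 2) := by
    rw [abs_of_nonneg (by positivity)]
    calc v0 * (1 / (d * k * (k + 1))) ≤ 1 * (1 / (d * k * k)) := by
          refine mul_le_mul h0' ?_ (by positivity) zero_le_one
          refine one_div_le_one_div_of_le (by positivity) ?_
          refine mul_le_mul_of_nonneg_left (by linarith) (by positivity)
      _ = _ := by rw [one_mul, pow_two, mul_assoc]
  calc _ ≤ |(v1 - v0) / (d * (k + 1))| + |v0 * (1 / (d * k * (k + 1)))| := abs_sub _ _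
    _ ≤ K / (d * (k : ℝ) ^ 2) + 1 / (d * (k : ℝ) ^ 2) := add_le_add h1 h2
    _ = _ := by rw [add_div]

lemma tail_sum {X : ℝ} (hX : 0 < X) {d : ℕ} (hd : 0 < d) (y : ℕ) :
    ∑ k ∈ Ioc 0 y, (if X < d * ((k : ℝ) + 1) then 1 / (k : ℝ) ^ 2 else 0) ≤ 4 * d / X := by
  have hd' : (0 : ℝ) < d := by exact_mod_cast hd
  have key : ∀ y : ℕ, ∑ k ∈ Ioc 0 y, (if X < d * ((k : ℝ) + 1) then 1 / (k : ℝ) ^ 2 else 0)
      ≤ if X < d * ((y : ℝ) + 1) then 4 * d / X - 2 / ((y : ℝ) + 1) else 0 := by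
    intro y
    induction y with
    | zero =>
      rw [Ioc_self, sum_empty]
      split_ifs with h
      · have h1 : 1 < d / X := by rw [one_lt_div hX]; simpa using h
        have h2 : (4 : ℝ) * d / X = 4 * (d / X) := by ring
        rw [h2]; norm_num; linarith
      · exact le_rfl
    | succ y ih =>
      rw [sum_Ioc_succ_top (Nat.zero_le y)]
      push_cast
      have hy : (0 : ℝ) ≤ y := Nat.cast_nonneg y
      by_cases h : X < d * ((y : ℝ) + 1)
      · rw [if_pos h] at ih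
        have h' : X < d * ((y : ℝ) + 1 + 1) := by nlinarith
        rw [if_pos h', if_pos h']
        have h3 : 1 / ((y : ℝ) + 1) ^ 2 ≤ 2 / ((y : ℝ) + 1) - 2 / ((y : ℝ) + 1 + 1) := by
          rw [div_sub_div _ _ (by positivity) (by positivity), div_le_div_iff₀ (by positivity) (by positivity)]
          nlinarith [mul_nonneg hy hy, mul_nonneg (mul_nonneg hy hy) hy]
        linarith
      · rw [if_neg h] at ih
        by_cases h' : X < d * ((y : ℝ) + 1 + 1)
        · rw [if_pos h', if_pos h']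
          have h4 : 1 / ((y : ℝ) + 1 + 1) < d / X := by
            rw [div_lt_div_iff₀ (by positivity) hX]
            linarith
          have h5 : (4 : ℝ) * d / X = 4 * (d / X) := by ring
          have h6 : 1 / ((y : ℝ) + 1) ^ 2 ≤ 2 / ((y : ℝ) + 1 + 1) := by
            rw [div_le_div_iff₀ (by positivity) (by positivity)]
            nlinarith
          have h7 : 2 / ((y : ℝ) + 1 + 1) = 2 * (1 / ((y : ℝ) + 1 + 1)) := by ring
          rw [h5]
          linarith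
        · rw [if_neg h', if_neg h']
          linarith
  refine (key y).trans ?_
  have h0 : 0 ≤ 4 * (d : ℝ) / X := by positivity
  have h1 : 0 ≤ 2 / ((y : ℝ) + 1) := by positivity
  split_ifs <;> linarith

lemma tv_le {K : ℝ} (hK0 : 0 ≤ K) (hK : ∀ u v, |V u - V v| ≤ K * |u - v|) {L a : ℝ} (hL : 1 ≤ L)
    {d : ℕ} (hd : 0 < d) (c : ℕ → ℝ) (hc0 : ∀ k, 0 ≤ c k)
    (hc : ∀ k : ℕ, 0 < k → c k ≤ c (k + 1) ∧ c (k + 1) - c k ≤ 1 / k) (y : ℕ) (Cm : ℝ)
    (hCm : ∀ k ≤ y, c k ≤ Cm) :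
    ∑ k ∈ Ioc 0 y, |c (k + 1) * wt L a (d * (k + 1)) - c k * wt L a (d * k)|
      ≤ (1 + Cm * (K + 1)) * (4 / Real.exp (L / 2 + a)) := by
  have hd' : (0 : ℝ) < d := by exact_mod_cast hd
  set X := Real.exp (L / 2 + a) with hX
  have hX0 : 0 < X := Real.exp_pos _
  have hCm0 : 0 ≤ Cm := (hc0 0).trans (hCm 0 (Nat.zero_le _))
  have h1 : ∀ k ∈ Ioc 0 y, |c (k + 1) * wt L a (d * (k + 1)) - c k * wt L a (d * k)|
      ≤ (1 + Cm * (K + 1)) / d * (if X < d * ((k : ℝ) + 1) then 1 / (k : ℝ) ^ 2 else 0) := by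
    intro k hk
    rw [mem_Ioc] at hk
    have hk' : (0 : ℝ) < k := by exact_mod_cast hk.1
    split_ifs with h
    · have e : c (k + 1) * wt L a (d * (k + 1)) - c k * wt L a (d * k)
          = (c (k + 1) - c k) * wt L a (d * (k + 1))
            + c k * (wt L a (d * (k + 1)) - wt L a (d * k)) := by ring
      rw [e]
      have a1 : |(c (k + 1) - c k) * wt L a (d * (k + 1))| ≤ 1 / k * (1 / (d * k)) := by
        rw [abs_of_nonneg (mul_nonneg (by linarith [(hc k hk.1).1]) (wt_nonneg _ _ _))]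
        refine mul_le_mul (hc k hk.1).2 ?_ (wt_nonneg _ _ _) (by positivity)
        refine (wt_le _ _ _).trans ?_
        push_cast
        refine one_div_le_one_div_of_le (by positivity) ?_
        nlinarith
      have a2 : |c k * (wt L a (d * (k + 1)) - wt L a (d * k))|
          ≤ Cm * ((K + 1) / (d * (k : ℝ) ^ 2)) := by
        rw [abs_mul, abs_of_nonneg (hc0 k)]
        exact mul_le_mul (hCm k hk.2) (wt_diff hK0 hK hL hd hk.1) (abs_nonneg _) hCm0
      calc _ ≤ _ := abs_add_le _ _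
        _ ≤ 1 / k * (1 / (d * k)) + Cm * ((K + 1) / (d * (k : ℝ) ^ 2)) := add_le_add a1 a2
        _ = _ := by field_simp
    · have hle : ((d * (k + 1) : ℕ) : ℝ) ≤ X := by push_cast; linarith
      have hle' : ((d * k : ℕ) : ℝ) ≤ X := by
        push_cast at hle ⊢
        nlinarith
      rw [wt_left (by linarith) hle, wt_left (by linarith) hle']
      simp
  refine (sum_le_sum h1).trans ?_
  rw [← mul_sum]
  calc (1 + Cm * (K + 1)) / d * ∑ k ∈ Ioc 0 y, (if X < d * ((k : ℝ) + 1) then 1 / (k : ℝ) ^ 2 else 0)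
      ≤ (1 + Cm * (K + 1)) / d * (4 * d / X) :=
        mul_le_mul_of_nonneg_left (tail_sum hX0 hd y) (by positivity)
    _ = _ := by field_simp

end Pool.Agent.helper85.MT
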