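import Pool.Agent.helper85.MT.Sep

/-!
# Large conductors
-/

namespace Pool.Agent.helper85.MT

open Finset Real ArithmeticFunction Pool.Agent.helper85.BVP Pool.Agent.helper39.MT MeasureTheory

lemma prim_ne_one {q : ℕ} (hq : 2 ≤ q) {χ : DirichletCharacter ℂ q} (h : χ.IsPrimitive) : χ ≠ 1 := by
  rintro rfl
  have : NeZero q := ⟨by omega⟩
  rw [DirichletCharacter.isPrimitive_def, DirichletCharacter.conductor_one] at h
  omega

lemma log_NN_le {L a : ℝ} (hL : 0 ≤ L) (ha : 0 ≤ a) : Real.log (NN L a) ≤ L + a := by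
  rcases Nat.eq_zero_or_pos (NN L a) with h | h
  · rw [h]; simp; linarith
  · rw [Real.log_le_iff_le_exp (by exact_mod_cast h)]
    exact Nat.floor_le (Real.exp_pos _).le

open Classical in
lemma card_prim_le (q : ℕ) [NeZero q] :
    ((#{χ : DirichletCharacter ℂ q | χ.IsPrimitive} : ℕ) : ℝ) ≤ Nat.totient q := by
  have h1 : #{χ : DirichletCharacter ℂ q | χ.IsPrimitive} ≤ #(univ : Finset (DirichletCharacter ℂ q)) :=
    card_le_card (filter_subset _ _)
  have h2 : #(univ : Finset (DirichletCharacter ℂ q)) = Nat.totient q := by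
    rw [card_univ, ← Nat.card_eq_fintype_card]
    exact DirichletCharacter.card_eq_totient_of_hasEnoughRootsOfUnity ℂ q
  rw [h2] at h1
  exact_mod_cast h1

open Classical in
/-- **Large conductors.** -/
theorem large_conductors (A : ℕ) (_hA : 0 < A) : ∃ C L1 : ℝ, 0 < C ∧ ∀ L : ℝ, L1 ≤ L →
    ∀ Q : ℕ, (Q : ℝ) ≤ Real.exp (L / 50) →
    ∑ q ∈ Icc 2 Q, (q : ℝ) / Nat.totient q * ∑ χ : DirichletCharacter ℂ q with χ.IsPrimitive,
        ‖TT χ L (Real.log A)‖ ≤ C * L ^ 5 := by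
  obtain ⟨K, hK0, hK⟩ := V_lip
  obtain ⟨C0, hC0, hII⟩ := typeII_wt
  have ha : 0 ≤ Real.log A := Real.log_natCast_nonneg A
  set a := Real.log A with hadef
  refine ⟨24 * (K + 2) + C0 * 486, max 1 (a + 1), by positivity, ?_⟩
  intro L hL Q hQ
  have hL1 : 1 ≤ L := (le_max_left _ _).trans hL
  have hLa : a + 1 ≤ L := (le_max_right _ _).trans hL
  have hL0 : 0 < L := by linarith
  set N := NN L a with hN
  have hlog0 := Real.log_natCast_nonneg N
  have hlogN : Real.log N ≤ L + a := log_NN_le hL0.le ha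
  set U := ⌊Real.exp (L / 20)⌋₊ with hU
  have hUle : (U : ℝ) ≤ Real.exp (L / 20) := Nat.floor_le (Real.exp_pos _).le
  have hU1 : 1 ≤ U := by
    refine Nat.le_floor ?_
    push_cast
    exact Real.one_le_exp (by positivity)
  have hQU : Q ^ 2 ≤ U := by
    refine Nat.le_floor ?_
    push_cast
    calc (Q : ℝ) ^ 2 ≤ Real.exp (L / 50) ^ 2 := pow_le_pow_left₀ (Nat.cast_nonneg Q) hQ 2
      _ = Real.exp (2 * (L / 50)) := by rw [← Real.exp_nat_mul]; norm_num
      _ ≤ Real.exp (L / 20) := Real.exp_le_exp.mpr (by linarith)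
  set X := Real.exp (L / 2 + a) with hX
  have hX0 : 0 < X := Real.exp_pos _
  have hUX : (U : ℝ) ≤ X := hUle.trans (Real.exp_le_exp.mpr (by linarith))
  set J := ⌈2 * (L + a)⌉₊ with hJ
  have hJle : (J : ℝ) ≤ 2 * (L + a) + 1 := (Nat.ceil_lt_add_one (by positivity)).le
  have hNJ : N ≤ U * 2 ^ J := by
    have h1 : (N : ℝ) ≤ 2 ^ J := by
      have h2 : (N : ℝ) ≤ Real.exp (L + a) := Nat.floor_le (Real.exp_pos _).le
      refine h2.trans ?_
      have h3 : (2 : ℝ) ^ J = Real.exp (J * Real.log 2) := by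
        rw [Real.exp_nat_mul, Real.exp_log (by norm_num)]
      rw [h3]
      refine Real.exp_le_exp.mpr ?_
      have h4 : 2 * (L + a) ≤ J := Nat.le_ceil _
      have h5 := Real.log_two_gt_d9
      nlinarith
    have h2 : N ≤ 2 ^ J := by exact_mod_cast h1
    exact h2.trans (Nat.le_mul_of_pos_left _ hU1)
  -- split
  have h1 : ∀ q ∈ Icc 2 Q, (q : ℝ) / Nat.totient q
      * ∑ χ : DirichletCharacter ℂ q with χ.IsPrimitive, ‖TT χ L a‖
      ≤ (Q : ℝ) ^ 2 * (8 * (K + 2) * (1 + Real.log N) * U ^ 2 / X)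
        + (q : ℝ) / Nat.totient q * ∑ χ : DirichletCharacter ℂ q with χ.IsPrimitive, ‖S4 χ L a U‖ := by
    intro q hq
    rw [mem_Icc] at hq
    have : NeZero q := ⟨by omega⟩
    have hq0 : (0 : ℝ) < q := by exact_mod_cast (by omega : 0 < q)
    have hφ : (0 : ℝ) < Nat.totient q := by exact_mod_cast Nat.totient_pos.mpr (by omega)
    have h2 : ∑ χ : DirichletCharacter ℂ q with χ.IsPrimitive, ‖TT χ L a‖
        ≤ ∑ χ : DirichletCharacter ℂ q with χ.IsPrimitive,
          (8 * (K + 2) * (1 + Real.log N) * U ^ 2 * q / X + ‖S4 χ L a U‖) := by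
      refine sum_le_sum fun χ hχ => ?_
      rw [mem_filter] at hχ
      have h3 := typeI_wt hK0 hK (a := a) hL1 q χ (prim_ne_one hq.1 hχ.2) U hU1 hUX
      have h4 : ‖TT χ L a‖ ≤ ‖TT χ L a - S4 χ L a U‖ + ‖S4 χ L a U‖ := by
        have := norm_add_le (TT χ L a - S4 χ L a U) (S4 χ L a U)
        rwa [sub_add_cancel] at this
      linarith
    refine (mul_le_mul_of_nonneg_left h2 (by positivity)).trans ?_
    rw [sum_add_distrib, mul_add]
    refine add_le_add ?_ le_rfl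
    rw [sum_const, nsmul_eq_mul]
    have hqQ : (q : ℝ) ≤ Q := by exact_mod_cast hq.2
    calc (q : ℝ) / Nat.totient q * (((#{χ : DirichletCharacter ℂ q | χ.IsPrimitive} : ℕ) : ℝ)
          * (8 * (K + 2) * (1 + Real.log N) * U ^ 2 * q / X))
        ≤ (q : ℝ) / Nat.totient q * (Nat.totient q
          * (8 * (K + 2) * (1 + Real.log N) * U ^ 2 * q / X)) := by
          refine mul_le_mul_of_nonneg_left ?_ (by positivity)
          exact mul_le_mul_of_nonneg_right (card_prim_le q) (by positivity)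
      _ = (q : ℝ) ^ 2 * (8 * (K + 2) * (1 + Real.log N) * U ^ 2 / X) := by
          field_simp
      _ ≤ _ := by
          refine mul_le_mul_of_nonneg_right ?_ (by positivity)
          exact pow_le_pow_left₀ hq0.le hqQ 2
  refine (sum_le_sum h1).trans ?_
  rw [sum_add_distrib]
  have h2 : ∑ q ∈ Icc 2 Q, (q : ℝ) / Nat.totient q
      * ∑ χ : DirichletCharacter ℂ q with χ.IsPrimitive, ‖S4 χ L a U‖
      ≤ C0 * (J * √((1 + Real.log N) ^ 7)) := by
    refine le_trans ?_ (hII L a hL0 Q U J hQU hNJ)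
    refine sum_le_sum_of_subset_of_nonneg (Icc_subset_Icc_left (by norm_num)) ?_
    intro q _ _
    exact mul_nonneg (by positivity) (sum_nonneg fun _ _ => norm_nonneg _)
  have h3 : ∑ q ∈ Icc 2 Q, (Q : ℝ) ^ 2 * (8 * (K + 2) * (1 + Real.log N) * U ^ 2 / X)
      ≤ 24 * (K + 2) * L ^ 5 := by
    rw [sum_const, nsmul_eq_mul]
    have hc : ((#(Icc 2 Q) : ℕ) : ℝ) ≤ Q := by
      rw [Nat.card_Icc]
      exact_mod_cast (by omega : Q + 1 - 2 ≤ Q)
    have hcube : (Q : ℝ) * Q ^ 2 * U ^ 2 ≤ X := by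
      calc (Q : ℝ) * Q ^ 2 * U ^ 2 = (Q : ℝ) ^ 3 * U ^ 2 := by ring
        _ ≤ Real.exp (L / 50) ^ 3 * Real.exp (L / 20) ^ 2 := by gcongr
        _ = Real.exp (3 * (L / 50) + 2 * (L / 20)) := by
            rw [← Real.exp_nat_mul, ← Real.exp_nat_mul, ← Real.exp_add]
            norm_num
        _ ≤ X := Real.exp_le_exp.mpr (by linarith)
    calc ((#(Icc 2 Q) : ℕ) : ℝ) * ((Q : ℝ) ^ 2 * (8 * (K + 2) * (1 + Real.log N) * U ^ 2 / X))
        ≤ (Q : ℝ) * ((Q : ℝ) ^ 2 * (8 * (K + 2) * (1 + Real.log N) * U ^ 2 / X)) :=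
          mul_le_mul_of_nonneg_right hc (by positivity)
      _ = 8 * (K + 2) * (1 + Real.log N) * ((Q : ℝ) * Q ^ 2 * U ^ 2 / X) := by ring
      _ ≤ 8 * (K + 2) * (1 + Real.log N) * 1 := by
          refine mul_le_mul_of_nonneg_left ?_ (by positivity)
          rw [div_le_one hX0]
          exact hcube
      _ ≤ 8 * (K + 2) * (3 * L ^ 5) := by
          rw [mul_one]
          refine mul_le_mul_of_nonneg_left ?_ (by positivity)
          have : L ≤ L ^ 5 := by
            calc L = L ^ 1 := (pow_one L).symm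
              _ ≤ L ^ 5 := pow_le_pow_right₀ hL1 (by norm_num)
          linarith
      _ = _ := by ring
  have h4 : (J : ℝ) * √((1 + Real.log N) ^ 7) ≤ 486 * L ^ 5 := by
    have hl : 1 + Real.log N ≤ 3 * L := by linarith
    have hl0 : 1 ≤ 1 + Real.log N := by linarith
    have hsq : √((1 + Real.log N) ^ 7) ≤ (3 * L) ^ 4 := by
      refine Real.sqrt_le_iff.mpr ⟨by positivity, ?_⟩
      calc (1 + Real.log N) ^ 7 ≤ (1 + Real.log N) ^ 8 := pow_le_pow_right₀ hl0 (by norm_num)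
        _ ≤ (3 * L) ^ 8 := pow_le_pow_left₀ (by linarith) hl 8
        _ = ((3 * L) ^ 4) ^ 2 := by ring
    have hJ2 : (J : ℝ) ≤ 6 * L := by linarith
    calc (J : ℝ) * √((1 + Real.log N) ^ 7) ≤ (6 * L) * (3 * L) ^ 4 :=
          mul_le_mul hJ2 hsq (Real.sqrt_nonneg _) (by positivity)
      _ = _ := by ring
  have h5 := mul_le_mul_of_nonneg_left h4 hC0
  linarith

end Pool.Agent.helper85.MT
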