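import Pool.Agent.helper85.MT.Char2
import Pool.Agent.Lib.SieveInterval

/-!
# TR5, TR6: the logarithmic weight in residue classes, and under affine maps
-/

namespace Pool.Agent.helper39.MT

open Finset Real ArithmeticFunction

/-- TR5: equidistribution of the weight in residue classes. -/
theorem wt_equi : ∃ C : ℝ, 0 < C ∧ ∀ L : ℝ, 2 ≤ L → ∀ D ν : ℕ, 0 < D →
    |∑ n ∈ Ioc 0 (NN L 0) with n ≡ ν [MOD D], wt L 0 n - (∑ n ∈ Ioc 0 (NN L 0), wt L 0 n) / D|
      ≤ C * Real.exp (-L / 2) := by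
  obtain ⟨K, hK0, hK⟩ := Pool.Agent.helper85.MT.V_lip
  refine ⟨4 * (K + 2), by positivity, ?_⟩
  intro L hL D ν hD
  set N := NN L 0 with hN
  set κ : ℕ → ℝ := fun n => (if n ≡ ν [MOD D] then (1 : ℝ) else 0) - 1 / D with hκ
  have hpart : ∀ y : ℕ, ‖∑ k ∈ Ioc 0 y, ((κ k : ℝ) : ℂ)‖ ≤ 1 := by
    intro y
    rw [← Complex.ofReal_sum, Complex.norm_real, Real.norm_eq_abs]
    have h1 := Pool.Agent.Lib.BrunHooley.card_modEq_approx 0 y D ν hD
    rw [zero_add] at h1
    have h2 : ∑ k ∈ Ioc 0 y, κ k = ((#{n ∈ Ioc 0 y | n ≡ ν [MOD D]} : ℕ) : ℝ) - y / D := by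
      simp only [hκ]
      rw [sum_sub_distrib, ← sum_filter, sum_const, sum_const, nsmul_eq_mul, nsmul_eq_mul, mul_one,
        Nat.card_Ioc, Nat.sub_zero, mul_one_div]
    rw [h2]
    exact h1
  have h1 := Pool.Agent.helper85.MT.abel_tv (fun k => wt L 0 k) (fun k => ((κ k : ℝ) : ℂ)) 1 hpart N
    (Pool.Agent.helper85.MT.wt_right (by linarith) (by rw [← hN]; exact Nat.lt_succ_self N))
  have h2 := Pool.Agent.helper85.MT.tv_le hK0 hK (a := 0) (L := L) (by linarith) (d := 1) one_pos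
    (fun _ => 1) (fun _ => zero_le_one) (fun k hk => ⟨le_rfl, by rw [sub_self]; positivity⟩) N 1
    (fun _ _ => le_rfl)
  have h3 : ∑ k ∈ Ioc 0 N, ((wt L 0 k : ℝ) : ℂ) * ((κ k : ℝ) : ℂ)
      = ((∑ n ∈ Ioc 0 N with n ≡ ν [MOD D], wt L 0 n - (∑ n ∈ Ioc 0 N, wt L 0 n) / D : ℝ) : ℂ) := by
    have e : ∑ n ∈ Ioc 0 N with n ≡ ν [MOD D], wt L 0 n - (∑ n ∈ Ioc 0 N, wt L 0 n) / D
        = ∑ k ∈ Ioc 0 N, wt L 0 k * κ k := by
      rw [sum_filter, sum_div, ← sum_sub_distrib]
      refine sum_congr rfl fun n _ => ?_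
      simp only [hκ]
      split_ifs <;> ring
    rw [e]
    push_cast
    rfl
  rw [h3, Complex.norm_real, Real.norm_eq_abs] at h1
  refine h1.trans ?_
  simp only [one_mul] at h2 ⊢
  refine h2.trans (le_of_eq ?_)
  rw [add_zero, show (-L / 2 : ℝ) = -(L / 2) by ring, Real.exp_neg]
  ring

/-- TR6: comparison of the weights `wt L 0 n` and `A * wt L (log A) (A n + B)`. -/
theorem wt_shift (A B : ℕ) (hA : 0 < A) : ∃ C L₁ : ℝ, 0 < C ∧ ∀ L : ℝ, L₁ ≤ L → ∀ n : ℕ, 0 < n →
    |wt L 0 n - A * wt L (Real.log A) (A * n + B)| ≤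
      (if Real.exp (L / 2) / 2 ≤ n then C / (n : ℝ) ^ 2 else 0) := by
  obtain ⟨K, hK0, hK⟩ := Pool.Agent.helper85.MT.V_lip
  refine ⟨(K + 1) * B + 1, 1 + 4 * B, by positivity, ?_⟩
  intro L hL n hn
  have hB0 : (0 : ℝ) ≤ B := Nat.cast_nonneg B
  have hL1 : 1 ≤ L := by linarith
  have hL0 : 0 < L := by linarith
  have hA' : (1 : ℝ) ≤ A := by exact_mod_cast hA
  have hA0 : (0 : ℝ) < A := by linarith
  have hn' : (1 : ℝ) ≤ n := by exact_mod_cast hn
  have hn0 : (0 : ℝ) < n := by linarith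
  set n' : ℝ := n + B / A with hn'def
  have hBA : (B : ℝ) / A ≤ B := div_le_self hB0 hA'
  have hBA0 : 0 ≤ (B : ℝ) / A := by positivity
  have hnn' : (n : ℝ) ≤ n' := by linarith
  have hn'0 : 0 < n' := by linarith
  have e1 : (A : ℝ) * wt L (Real.log A) (A * n + B) = V (Real.log n' / L) / n' := by
    unfold wt
    push_cast
    have h1 : (A : ℝ) * n + B = A * n' := by rw [hn'def]; field_simp
    rw [h1, Real.log_mul hA0.ne' hn'0.ne', add_sub_cancel_left]
    field_simp
  have e2 : wt L 0 n = V (Real.log n / L) / n := by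
    unfold wt
    rw [sub_zero]
  rw [e1, e2]
  split_ifs with h
  · have h0 : 0 ≤ V (Real.log n / L) := V_nonneg _
    have h0' : V (Real.log n / L) ≤ 1 := V_le_one _
    have hlog0 : 0 ≤ Real.log n' - Real.log n := by
      have := Real.log_le_log hn0 hnn'
      linarith
    have hlog : Real.log n' - Real.log n ≤ B / n := by
      have h1 : Real.log (n' / n) ≤ n' / n - 1 := Real.log_le_sub_one_of_pos (by positivity)
      rw [Real.log_div hn'0.ne' hn0.ne'] at h1
      have h2 : n' / n - 1 = (B / A) / n := by rw [hn'def]; field_simp; ring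
      have h3 : (B / A : ℝ) / n ≤ B / n := div_le_div_of_nonneg_right hBA hn0.le
      linarith
    have hv : |V (Real.log n / L) - V (Real.log n' / L)| ≤ K * (B / n) := by
      refine (hK _ _).trans (mul_le_mul_of_nonneg_left ?_ hK0)
      rw [← sub_div, abs_div, abs_sub_comm, abs_of_nonneg hlog0, abs_of_pos hL0]
      exact (div_le_self hlog0 hL1).trans hlog
    have e : V (Real.log n / L) / n - V (Real.log n' / L) / n'
        = (V (Real.log n / L) - V (Real.log n' / L)) / n'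
          + V (Real.log n / L) * ((n' - n) / (n * n')) := by
      field_simp
      ring
    rw [e]
    have a1 : |(V (Real.log n / L) - V (Real.log n' / L)) / n'| ≤ K * B / (n : ℝ) ^ 2 := by
      rw [abs_div, abs_of_pos hn'0]
      calc |V (Real.log n / L) - V (Real.log n' / L)| / n' ≤ (K * (B / n)) / n :=
            div_le_div₀ (by positivity) hv hn0 hnn'
        _ = _ := by field_simp
    have a2 : |V (Real.log n / L) * ((n' - n) / (n * n'))| ≤ B / (n : ℝ) ^ 2 := by
      have h5 : 0 ≤ n' - n := by linarith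
      rw [abs_of_nonneg (by positivity)]
      calc V (Real.log n / L) * ((n' - n) / (n * n')) ≤ 1 * (B / (n * n)) := by
            refine mul_le_mul h0' ?_ (by positivity) zero_le_one
            refine div_le_div₀ hB0 (by linarith) (by positivity) ?_
            exact mul_le_mul_of_nonneg_left hnn' hn0.le
        _ = _ := by rw [one_mul, pow_two]
    have h6 : 0 < 1 / (n : ℝ) ^ 2 := by positivity
    calc _ ≤ _ := abs_add_le _ _
      _ ≤ K * B / (n : ℝ) ^ 2 + B / (n : ℝ) ^ 2 := add_le_add a1 a2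
      _ ≤ K * B / (n : ℝ) ^ 2 + B / (n : ℝ) ^ 2 + 1 / (n : ℝ) ^ 2 := by linarith
      _ = _ := by ring
  · push Not at h
    have hexp : 2 * (B : ℝ) ≤ Real.exp (L / 2) := by
      have := Real.add_one_le_exp (L / 2)
      linarith
    have h1 : n' ≤ Real.exp (L / 2) := by linarith
    have z : ∀ x : ℝ, 0 < x → x ≤ Real.exp (L / 2) → V (Real.log x / L) = 0 := by
      intro x hx hx'
      refine V_eq_zero_left ?_
      rw [div_le_iff₀ hL0]
      have := (Real.log_le_iff_le_exp hx).mpr hx'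
      linarith
    rw [z n hn0 (by linarith), z n' hn'0 h1]
    simp

end Pool.Agent.helper39.MT
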