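import Pool.Agent.helper85.MT.Large

/-!
# AN1: large conductors, in the form of the common specification
-/

namespace Pool.Agent.helper39.MT

open Finset Real ArithmeticFunction

open Classical in
/-- AN1. -/
theorem large_conductors (A : ℕ) (hA : 0 < A) : ∃ C L₁ : ℝ, 0 < C ∧ ∀ L : ℝ, L₁ ≤ L → ∀ Q : ℕ,
    (Q : ℝ) ≤ Real.exp (L / 50) →
    ∑ q ∈ Icc 2 Q, ((q : ℝ) / Nat.totient q) *
      ∑ χ ∈ (univ : Finset (DirichletCharacter ℂ q)).filter (fun χ => χ.IsPrimitive),
        ‖TT χ L (Real.log A)‖ ≤ C * L ^ 5 :=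
  Pool.Agent.helper85.MT.large_conductors A hA

end Pool.Agent.helper39.MT
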