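import Pool.Agent.helper85.MT.AN8
import Pool.Agent.helper95.MT.AN2
import Pool.Agent.helper95.MT.AN7
import Pool.Agent.helper35.MT.AN3

/-!
# AN8: small conductors at a good scale
-/

namespace Pool.Agent.helper39.MT

open Finset Real ArithmeticFunction

/-- AN3'. -/
theorem GG_bound (K : ℕ) : ∃ C : ℝ, ∃ E : ℕ, 0 < C ∧ ∀ q : ℕ, 2 ≤ q →
    ∀ χ : DirichletCharacter ℂ q, χ ≠ 1 → ∀ s : ℂ, 1 < s.re → s.re ≤ 2 → |s.im| ≤ 1 →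
    ∀ b : ℝ, 0 < b → b ≤ 1 → b ≤ ‖DD χ 0 s‖ → ∀ j ≤ K,
      ‖GG χ j s‖ ≤ C * ((1 + Real.log q) / b) ^ E :=
  GG_bound_of DD_bound K

/-- AN8: small conductors at a good scale. -/
theorem small_T (C₀ K A : ℕ) (hA : 0 < A) : ∃ L₁ : ℝ, ∀ L : ℝ, L₁ ≤ L → Good C₀ L →
    ∀ q : ℕ, 2 ≤ q → (q : ℝ) ≤ L ^ C₀ → ∀ χ : DirichletCharacter ℂ q, χ.IsPrimitive →
    ‖TT χ L (Real.log A)‖ ≤ 1 / L ^ K :=
  small_T_of DD_lipschitz GG_bound TT_fourier C₀ K A hA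

end Pool.Agent.helper39.MT
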