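import Pool.Agent.helper85.MT.Large

/-!
# AN9a, AN9b: errors in progressions by primitive characters
-/

namespace Pool.Agent.helper39.MT

open Finset Real ArithmeticFunction

/-- prime powers which are not prime to the modulus have little weight. -/
lemma bad_sum (A : ℕ) {m : ℕ} (hm : 0 < m) {L : ℝ} (hL : 1 ≤ L) :
    ∑ n ∈ Ioc 0 (NN L (Real.log A)) with ¬ Nat.Coprime n m, vonMangoldt n * wt L (Real.log A) n
      ≤ m * (2 * (L + Real.log A) ^ 2) * Real.exp (-(L / 2)) := by
  have ha : 0 ≤ Real.log A := Real.log_natCast_nonneg A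
  set a := Real.log A with hadef
  set N := NN L a with hN
  have hL0 : 0 < L := by linarith
  have hlogN : Real.log N ≤ L + a := Pool.Agent.helper85.MT.log_NN_le hL0.le ha
  set S := (Ioc 0 N).filter (fun n => ¬ Nat.Coprime n m) with hS
  set S' := S.filter (fun n => IsPrimePow n) with hS'
  have h1 : ∑ n ∈ S, vonMangoldt n * wt L a n = ∑ n ∈ S', vonMangoldt n * wt L a n := by
    rw [hS']
    symm
    refine sum_filter_of_ne fun n _ h => ?_
    by_contra h'
    exact h (by rw [vonMangoldt_apply, if_neg h', zero_mul])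
  rw [h1]
  have h2 : ∀ n ∈ S', vonMangoldt n * wt L a n ≤ (L + a) * Real.exp (-(L / 2)) := by
    intro n hn
    rw [hS', mem_filter, hS, mem_filter, mem_Ioc] at hn
    have hn0 : (0 : ℝ) < n := by exact_mod_cast hn.1.1.1
    have hΛ : vonMangoldt n ≤ L + a := by
      refine le_trans (vonMangoldt_le_log (n := n)) (le_trans ?_ hlogN)
      exact Pool.Agent.helper85.BVP.log_nat_le hn.1.1.2
    by_cases h : (n : ℝ) ≤ Real.exp (L / 2 + a)
    · rw [Pool.Agent.helper85.MT.wt_left hL0 h, mul_zero]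
      positivity
    · push Not at h
      refine mul_le_mul hΛ ?_ (Pool.Agent.helper85.MT.wt_nonneg _ _ _) (by positivity)
      refine (Pool.Agent.helper85.MT.wt_le _ _ _).trans ?_
      rw [Real.exp_neg, ← one_div]
      refine one_div_le_one_div_of_le (Real.exp_pos _) ?_
      exact (Real.exp_le_exp.mpr (by linarith)).trans h.le
  refine (sum_le_sum h2).trans ?_
  rw [sum_const, nsmul_eq_mul]
  have hcard : ((#S' : ℕ) : ℝ) ≤ m * (2 * (L + a)) := by
    have hsub : S' ⊆ (m.primeFactors ×ˢ Icc 1 (Nat.log 2 N)).image (fun p => p.1 ^ p.2) := by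
      intro n hn
      rw [hS', mem_filter, hS, mem_filter, mem_Ioc] at hn
      obtain ⟨⟨⟨hn0, hnN⟩, hcop⟩, hpp⟩ := hn
      rw [isPrimePow_nat_iff] at hpp
      obtain ⟨p, k, hp, hk, rfl⟩ := hpp
      rw [mem_image]
      refine ⟨(p, k), ?_, rfl⟩
      rw [mem_product, Nat.mem_primeFactors, mem_Icc]
      refine ⟨⟨hp, ?_, hm.ne'⟩, hk, ?_⟩
      · by_contra h
        exact hcop (Nat.Coprime.pow_left k ((Nat.Prime.coprime_iff_not_dvd hp).mpr h))
      · refine Nat.le_log_of_pow_le (by norm_num) ?_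
        exact (Nat.pow_le_pow_left hp.two_le k).trans hnN
    have h3 := (card_le_card hsub).trans card_image_le
    rw [card_product, Nat.card_Icc, Nat.add_sub_cancel] at h3
    have h4 : #m.primeFactors ≤ m := by
      have : m.primeFactors ⊆ Icc 1 m := by
        intro p hp
        rw [mem_Icc]
        exact ⟨(Nat.prime_of_mem_primeFactors hp).one_le, Nat.le_of_mem_primeFactors hp⟩
      have := card_le_card this
      rwa [Nat.card_Icc, Nat.add_sub_cancel] at this
    have h5 : ((Nat.log 2 N : ℕ) : ℝ) ≤ 2 * (L + a) := by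
      rcases Nat.eq_zero_or_pos N with h0 | h0
      · rw [h0, Nat.log_zero_right]
        push_cast
        positivity
      · have h6 : (2 : ℝ) ^ Nat.log 2 N ≤ N := by exact_mod_cast Nat.pow_log_le_self 2 h0.ne'
        have h7 := Real.log_le_log (by positivity) h6
        rw [Real.log_pow] at h7
        have h8 := Real.log_two_gt_d9
        have h9 : (0 : ℝ) ≤ (Nat.log 2 N : ℕ) := Nat.cast_nonneg _
        nlinarith
    have h6 : ((#S' : ℕ) : ℝ) ≤ (m : ℝ) * (Nat.log 2 N : ℕ) := by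
      have : #S' ≤ m * Nat.log 2 N := h3.trans (Nat.mul_le_mul_right _ h4)
      exact_mod_cast this
    exact h6.trans (mul_le_mul_of_nonneg_left h5 (Nat.cast_nonneg m))
  calc ((#S' : ℕ) : ℝ) * ((L + a) * Real.exp (-(L / 2)))
      ≤ (m * (2 * (L + a))) * ((L + a) * Real.exp (-(L / 2))) :=
        mul_le_mul_of_nonneg_right hcard (by positivity)
    _ = _ := by ring

lemma sq_le_exp {L a : ℝ} (ha : 0 ≤ a) (hL : a ≤ L) (hL0 : 0 ≤ L) :
    2 * (L + a) ^ 2 ≤ 1600 * Real.exp (L / 10) := by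
  have h1 := Real.quadratic_le_exp_of_nonneg (x := L / 10) (by positivity)
  have h2 : (L + a) ^ 2 ≤ (2 * L) ^ 2 := pow_le_pow_left₀ (by linarith) (by linarith) 2
  nlinarith

open Classical in
/-- AN9a: the error in progressions by characters. -/
theorem EE_le_chars (A : ℕ) (hA : 0 < A) : ∃ C L₁ : ℝ, 0 < C ∧ ∀ L : ℝ, L₁ ≤ L → ∀ D b : ℕ, 0 < D →
    (D : ℝ) ≤ Real.exp (L / 60) → Nat.Coprime b (A * D) →
    EE A L D b ≤ (1 / (Nat.totient (A * D) : ℝ)) *
      ∑ χ ∈ (univ : Finset (DirichletCharacter ℂ (A * D))).filter (fun χ => χ ≠ 1),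
        ‖TT χ L (Real.log A)‖ + C * Real.exp (-L / 5) := by
  have ha : 0 ≤ Real.log A := Real.log_natCast_nonneg A
  refine ⟨1600 * A, max 1 (Real.log A), by positivity, ?_⟩
  set a := Real.log A with hadef
  intro L hL D b hD hDL hb
  have hL1 : 1 ≤ L := (le_max_left _ _).trans hL
  have hLa : a ≤ L := (le_max_right _ _).trans hL
  set m := A * D with hm
  have hm0 : 0 < m := Nat.mul_pos hA hD
  set S := (univ : Finset (DirichletCharacter ℂ m)).filter (fun χ => χ ≠ 1) with hS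
  have hSmem : ∀ χ : DirichletCharacter ℂ m, χ ∈ S ↔ χ ≠ 1 := fun χ => by simp [hS]
  have : NeZero m := ⟨hm0.ne'⟩
  set N := NN L a with hN
  set f : ℕ → ℝ := fun n => vonMangoldt n * wt L a n with hf
  have hφ : (0 : ℝ) < Nat.totient m := by exact_mod_cast Nat.totient_pos.mpr hm0
  have hφ1 : (1 : ℝ) ≤ Nat.totient m := by exact_mod_cast Nat.totient_pos.mpr hm0
  have hbu : IsUnit (b : ZMod m) := (ZMod.isUnit_iff_coprime b m).mpr hb
  -- orthogonality
  have h1 : ((Nat.totient m * ∑ n ∈ Ioc 0 N with n ≡ b [MOD m], f n : ℝ) : ℂ)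
      = ∑ χ : DirichletCharacter ℂ m, χ (b : ZMod m)⁻¹ * TT χ L a := by
    have e1 : ∀ χ : DirichletCharacter ℂ m, χ (b : ZMod m)⁻¹ * TT χ L a
        = ∑ n ∈ Ioc 0 N, (f n : ℂ) * (χ (b : ZMod m)⁻¹ * χ (n : ZMod m)) := by
      intro χ
      rw [TT, mul_sum]
      refine sum_congr rfl fun n _ => ?_
      simp only [hf]
      push_cast
      ring
    rw [sum_congr rfl (fun χ _ => e1 χ), sum_comm]
    have e2 : ∀ n ∈ Ioc 0 N, ∑ χ : DirichletCharacter ℂ m, (f n : ℂ) * (χ (b : ZMod m)⁻¹ * χ (n : ZMod m))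
        = if n ≡ b [MOD m] then (f n : ℂ) * Nat.totient m else 0 := by
      intro n _
      rw [← mul_sum, DirichletCharacter.sum_char_inv_mul_char_eq ℂ hbu]
      have h3 : ((b : ZMod m) = (n : ZMod m)) ↔ n ≡ b [MOD m] := by
        rw [ZMod.natCast_eq_natCast_iff]
        exact ⟨fun h => h.symm, fun h => h.symm⟩
      by_cases h : n ≡ b [MOD m]
      · rw [if_pos h, if_pos (h3.mpr h)]
      · rw [if_neg h, if_neg (fun h' => h (h3.mp h')), mul_zero]
    rw [sum_congr rfl e2, ← sum_filter]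
    push_cast
    rw [mul_sum]
    exact sum_congr rfl fun n _ => by ring
  -- the trivial character
  have h2 : TT (1 : DirichletCharacter ℂ m) L a
      = ((∑ n ∈ Ioc 0 N, f n - ∑ n ∈ Ioc 0 N with ¬ Nat.Coprime n m, f n : ℝ) : ℂ) := by
    have e1 : ∑ n ∈ Ioc 0 N, f n - ∑ n ∈ Ioc 0 N with ¬ Nat.Coprime n m, f n
        = ∑ n ∈ Ioc 0 N, (if Nat.Coprime n m then f n else 0) := by
      rw [sum_filter, ← sum_sub_distrib]
      refine sum_congr rfl fun n _ => ?_
      by_cases h : Nat.Coprime n m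
      · rw [if_neg (not_not.mpr h), if_pos h, sub_zero]
      · rw [if_pos h, if_neg h, sub_self]
    rw [e1, TT]
    push_cast
    refine sum_congr rfl fun n _ => ?_
    by_cases h : Nat.Coprime n m
    · have hu : IsUnit (n : ZMod m) := (ZMod.isUnit_iff_coprime n m).mpr h
      rw [MulChar.one_apply hu, if_pos h, mul_one]
      simp only [hf]
      push_cast
      rfl
    · have hu : ¬ IsUnit (n : ZMod m) := fun hu => h ((ZMod.isUnit_iff_coprime n m).mp hu)
      rw [MulChar.map_nonunit _ hu, if_neg h]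
      simp
  set bad := ∑ n ∈ Ioc 0 N with ¬ Nat.Coprime n m, f n with hbad
  have hbad0 : 0 ≤ bad := sum_nonneg fun n _ =>
    mul_nonneg vonMangoldt_nonneg (Pool.Agent.helper85.MT.wt_nonneg _ _ _)
  have hbad1 : bad ≤ m * (2 * (L + a) ^ 2) * Real.exp (-(L / 2)) := bad_sum A hm0 hL1
  have h3 : ((Nat.totient m * ∑ n ∈ Ioc 0 N with n ≡ b [MOD m], f n - ∑ n ∈ Ioc 0 N, f n + bad : ℝ) : ℂ)
      = ∑ χ ∈ S,
        χ (b : ZMod m)⁻¹ * TT χ L a := by
    have e1 : ∑ χ : DirichletCharacter ℂ m, χ (b : ZMod m)⁻¹ * TT χ L a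
        = (1 : DirichletCharacter ℂ m) (b : ZMod m)⁻¹ * TT (1 : DirichletCharacter ℂ m) L a
          + ∑ χ ∈ S,
            χ (b : ZMod m)⁻¹ * TT χ L a := by
      have e0 : S = univ.erase (1 : DirichletCharacter ℂ m) := by
        ext χ
        rw [hSmem, mem_erase]
        simp
      rw [e0]
      exact (add_sum_erase univ (fun χ : DirichletCharacter ℂ m => χ (b : ZMod m)⁻¹ * TT χ L a)
        (mem_univ 1)).symm
    have e2 : (1 : DirichletCharacter ℂ m) (b : ZMod m)⁻¹ = 1 := by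
      refine MulChar.one_apply ?_
      obtain ⟨u, hu⟩ := hbu
      rw [← hu, ZMod.inv_coe_unit]
      exact u⁻¹.isUnit
    rw [e2, one_mul, h2] at e1
    have e3 := h1.trans e1
    have e4 : ∑ χ ∈ S,
            χ (b : ZMod m)⁻¹ * TT χ L a
        = ((Nat.totient m * ∑ n ∈ Ioc 0 N with n ≡ b [MOD m], f n : ℝ) : ℂ)
          - ((∑ n ∈ Ioc 0 N, f n - bad : ℝ) : ℂ) := by
      rw [e3]
      ring
    rw [e4]
    push_cast
    ring
  have h4 : |Nat.totient m * ∑ n ∈ Ioc 0 N with n ≡ b [MOD m], f n - ∑ n ∈ Ioc 0 N, f n + bad|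
      ≤ ∑ χ ∈ S, ‖TT χ L a‖ := by
    rw [← Real.norm_eq_abs, ← Complex.norm_real, h3]
    refine (norm_sum_le _ _).trans (sum_le_sum fun χ _ => ?_)
    rw [norm_mul]
    exact mul_le_of_le_one_left (norm_nonneg _) (DirichletCharacter.norm_le_one χ _)
  have h5 : EE A L D b = |∑ n ∈ Ioc 0 N with n ≡ b [MOD m], f n
      - (∑ n ∈ Ioc 0 N, f n) / (Nat.totient m : ℝ)| := rfl
  rw [h5]
  have e6 : ∑ n ∈ Ioc 0 N with n ≡ b [MOD m], f n - (∑ n ∈ Ioc 0 N, f n) / (Nat.totient m : ℝ)
      = (1 / (Nat.totient m : ℝ)) * (Nat.totient m * ∑ n ∈ Ioc 0 N with n ≡ b [MOD m], f n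
        - ∑ n ∈ Ioc 0 N, f n + bad) - bad / Nat.totient m := by
    field_simp
    ring
  rw [e6]
  have h7 : |bad / (Nat.totient m : ℝ)| ≤ 1600 * A * Real.exp (-L / 5) := by
    rw [abs_of_nonneg (by positivity)]
    refine (div_le_self hbad0 hφ1).trans (hbad1.trans ?_)
    have h8 := sq_le_exp ha hLa (by linarith)
    have h9 : (m : ℝ) ≤ A * Real.exp (L / 60) := by
      rw [hm]; push_cast
      exact mul_le_mul_of_nonneg_left hDL (Nat.cast_nonneg A)
    calc (m : ℝ) * (2 * (L + a) ^ 2) * Real.exp (-(L / 2))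
        ≤ (A * Real.exp (L / 60)) * (1600 * Real.exp (L / 10)) * Real.exp (-(L / 2)) := by gcongr
      _ = 1600 * A * Real.exp (L / 60 + L / 10 + -(L / 2)) := by
          rw [Real.exp_add, Real.exp_add]; ring
      _ ≤ 1600 * A * Real.exp (-L / 5) := by
          refine mul_le_mul_of_nonneg_left (Real.exp_le_exp.mpr (by linarith)) (by positivity)
  calc _ ≤ |(1 / (Nat.totient m : ℝ)) * (Nat.totient m * ∑ n ∈ Ioc 0 N with n ≡ b [MOD m], f n
        - ∑ n ∈ Ioc 0 N, f n + bad)| + |bad / (Nat.totient m : ℝ)| := abs_sub _ _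
    _ ≤ (1 / (Nat.totient m : ℝ)) * ∑ χ ∈ S, ‖TT χ L a‖ + 1600 * A * Real.exp (-L / 5) := by
        refine add_le_add ?_ h7
        rw [abs_mul, abs_of_nonneg (by positivity : 0 ≤ 1 / (Nat.totient m : ℝ))]
        exact mul_le_mul_of_nonneg_left h4 (by positivity)

open Classical in
/-- AN9b: reduction to primitive characters. -/
theorem chars_le_prim (A : ℕ) (_hA : 0 < A) : ∃ C L₁ : ℝ, 0 < C ∧ ∀ L : ℝ, L₁ ≤ L → ∀ m : ℕ, 0 < m →
    (m : ℝ) ≤ Real.exp (L / 50) →
    ∑ χ ∈ (univ : Finset (DirichletCharacter ℂ m)).filter (fun χ => χ ≠ 1),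
        ‖TT χ L (Real.log A)‖ ≤
      ∑ r ∈ m.divisors with 2 ≤ r,
        ∑ χ ∈ (univ : Finset (DirichletCharacter ℂ r)).filter (fun χ => χ.IsPrimitive),
          ‖TT χ L (Real.log A)‖ + C * Real.exp (-L / 5) := by
  have ha : 0 ≤ Real.log A := Real.log_natCast_nonneg A
  refine ⟨1600, max 1 (Real.log A), by norm_num, ?_⟩
  set a := Real.log A with hadef
  intro L hL m hm0 hmL
  have hL1 : 1 ≤ L := (le_max_left _ _).trans hL
  have hLa : a ≤ L := (le_max_right _ _).trans hL
  set S := (univ : Finset (DirichletCharacter ℂ m)).filter (fun χ => χ ≠ 1) with hS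
  have hSmem : ∀ χ : DirichletCharacter ℂ m, χ ∈ S ↔ χ ≠ 1 := fun χ => by simp [hS]
  have : NeZero m := ⟨hm0.ne'⟩
  set N := NN L a with hN
  set bad := ∑ n ∈ Ioc 0 N with ¬ Nat.Coprime n m, vonMangoldt n * wt L a n with hbad
  have hbad0 : 0 ≤ bad := sum_nonneg fun n _ =>
    mul_nonneg vonMangoldt_nonneg (Pool.Agent.helper85.MT.wt_nonneg _ _ _)
  have hbad1 : bad ≤ m * (2 * (L + a) ^ 2) * Real.exp (-(L / 2)) := bad_sum A hm0 hL1
  -- comparison with the primitive character
  have h1 : ∀ χ : DirichletCharacter ℂ m, ‖TT χ L a‖ ≤ ‖TT χ.primitiveCharacter L a‖ + bad := by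
    intro χ
    have e1 : ‖TT χ L a - TT χ.primitiveCharacter L a‖ ≤ bad := by
      rw [TT, TT, ← hN, ← sum_sub_distrib, hbad, sum_filter]
      refine (norm_sum_le _ _).trans (sum_le_sum fun n _ => ?_)
      have e2 : (vonMangoldt n : ℂ) * χ n * (wt L a n : ℂ)
          - (vonMangoldt n : ℂ) * χ.primitiveCharacter n * (wt L a n : ℂ)
          = ((vonMangoldt n * wt L a n : ℝ) : ℂ) * (χ n - χ.primitiveCharacter n) := by
        push_cast; ring
      rw [e2]
      by_cases h : Nat.Coprime n m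
      · have h2 := χ.primitiveCharacter_apply_of_isCoprime (a := (n : ℤ))
          (Nat.isCoprime_iff_coprime.mpr h)
        push_cast at h2
        rw [if_neg (not_not.mpr h), h2, sub_self, mul_zero, norm_zero]
      · have hu : ¬ IsUnit (n : ZMod m) := fun hu => h ((ZMod.isUnit_iff_coprime n m).mp hu)
        rw [if_pos h, MulChar.map_nonunit _ hu, zero_sub, norm_mul, norm_neg, Complex.norm_real,
          Real.norm_of_nonneg (mul_nonneg vonMangoldt_nonneg (Pool.Agent.helper85.MT.wt_nonneg _ _ _))]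
        exact mul_le_of_le_one_right
          (mul_nonneg vonMangoldt_nonneg (Pool.Agent.helper85.MT.wt_nonneg _ _ _))
          (DirichletCharacter.norm_le_one _ _)
    have e3 := norm_add_le (TT χ L a - TT χ.primitiveCharacter L a) (TT χ.primitiveCharacter L a)
    rw [sub_add_cancel] at e3
    linarith
  have h2 : ∑ χ ∈ S, ‖TT χ L a‖ ≤ ∑ χ ∈ S, ‖TT χ.primitiveCharacter L a‖ + m * bad := by
    refine (sum_le_sum fun χ _ => h1 χ).trans ?_
    rw [sum_add_distrib]
    refine add_le_add le_rfl ?_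
    rw [sum_const, nsmul_eq_mul]
    refine mul_le_mul_of_nonneg_right ?_ hbad0
    have h3 : #S ≤ #(univ : Finset (DirichletCharacter ℂ m)) := card_le_card (subset_univ _)
    have h4 : #(univ : Finset (DirichletCharacter ℂ m)) = Nat.totient m := by
      rw [card_univ, ← Nat.card_eq_fintype_card]
      exact DirichletCharacter.card_eq_totient_of_hasEnoughRootsOfUnity ℂ m
    rw [h4] at h3
    exact_mod_cast h3.trans (Nat.totient_le m)
  -- injectivity
  set T : Finset (Σ r : ℕ, DirichletCharacter ℂ r) :=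
    (m.divisors.filter (fun r => 2 ≤ r)).sigma
      (fun r => (univ : Finset (DirichletCharacter ℂ r)).filter (fun χ => χ.IsPrimitive)) with hT
  set g : DirichletCharacter ℂ m → (Σ r : ℕ, DirichletCharacter ℂ r) :=
    fun χ => ⟨χ.conductor, χ.primitiveCharacter⟩ with hg
  have hinj : Function.Injective g := by
    have hleft : ∀ χ : DirichletCharacter ℂ m,
        (fun i : (Σ r : ℕ, DirichletCharacter ℂ r) =>
          if h : i.1 ∣ m then DirichletCharacter.changeLevel h i.2 else 1) (g χ) = χ := by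
      intro χ
      simp only [hg]
      rw [dif_pos χ.conductor_dvd_level]
      exact χ.changeLevel_primitiveCharacter
    intro χ χ' h
    rw [← hleft χ, ← hleft χ', h]
  have h3 : ∑ χ ∈ S, ‖TT χ.primitiveCharacter L a‖ ≤ ∑ i ∈ T, ‖TT i.2 L a‖ := by
    have e1 : ∑ χ ∈ S, ‖TT χ.primitiveCharacter L a‖
        = ∑ i ∈ S.image g, ‖TT i.2 L a‖ := by
      rw [sum_image (fun x _ y _ h => hinj h)]
    rw [e1]
    refine sum_le_sum_of_subset_of_nonneg ?_ (fun _ _ _ => norm_nonneg _)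
    intro i hi
    rw [mem_image] at hi
    obtain ⟨χ, hχ, rfl⟩ := hi
    rw [hSmem] at hχ
    rw [hT, mem_sigma, mem_filter, mem_filter]
    refine ⟨⟨Nat.mem_divisors.mpr ⟨χ.conductor_dvd_level, hm0.ne'⟩, ?_⟩, mem_univ _,
      χ.primitiveCharacter_isPrimitive⟩
    have h4 : χ.conductor ≠ 0 := DirichletCharacter.conductor_ne_zero χ
    have h5 : χ.conductor ≠ 1 := fun h => hχ (DirichletCharacter.eq_one_iff_conductor_eq_one.mpr h)
    simp only [hg]
    omega
  have h4 : ∑ i ∈ T, ‖TT i.2 L a‖ = ∑ r ∈ m.divisors with 2 ≤ r,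
        ∑ χ ∈ (univ : Finset (DirichletCharacter ℂ r)).filter (fun χ => χ.IsPrimitive),
          ‖TT χ L a‖ := by
    rw [hT, sum_sigma]
  have h5 : m * bad ≤ 1600 * Real.exp (-L / 5) := by
    have h8 := sq_le_exp ha hLa (by linarith)
    calc (m : ℝ) * bad ≤ m * (m * (2 * (L + a) ^ 2) * Real.exp (-(L / 2))) :=
          mul_le_mul_of_nonneg_left hbad1 (Nat.cast_nonneg m)
      _ ≤ Real.exp (L / 50) * (Real.exp (L / 50) * (1600 * Real.exp (L / 10))
            * Real.exp (-(L / 2))) := by gcongr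
      _ = 1600 * Real.exp (L / 50 + L / 50 + L / 10 + -(L / 2)) := by
          rw [Real.exp_add, Real.exp_add, Real.exp_add]; ring
      _ ≤ 1600 * Real.exp (-L / 5) := by
          refine mul_le_mul_of_nonneg_left (Real.exp_le_exp.mpr (by linarith)) (by norm_num)
  rw [← h4]
  linarith

end Pool.Agent.helper39.MT
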