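import Pool.Agent.helper85.MT.Char2

/-!
# Vaughan's identity with logarithmic weights
-/

namespace Pool.Agent.helper85.MT

open Finset Real ArithmeticFunction Pool.Agent.helper85.BVP Pool.Agent.helper39.MT

/-- The bilinear part of `TT`. -/
noncomputable def S4 {r : ℕ} (χ : DirichletCharacter ℂ r) (L a : ℝ) (U : ℕ) : ℂ :=
  ∑ m ∈ Ioc 0 (NN L a), (alpha U m : ℂ) * ∑ n ∈ Ioc 0 (NN L a / m), (beta U n : ℂ)
    * (χ ((m * n : ℕ) : ZMod r) * (wt L a (m * n) : ℂ))

/-- Vaughan's decomposition of the character sum over primes. -/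
lemma typeI_wt {K : ℝ} (hK0 : 0 ≤ K) (hK : ∀ u v, |V u - V v| ≤ K * |u - v|) {L a : ℝ} (hL : 1 ≤ L)
    (r : ℕ) [NeZero r] (χ : DirichletCharacter ℂ r) (hχ : χ ≠ 1) (U : ℕ) (hU : 1 ≤ U)
    (hUX : (U : ℝ) ≤ Real.exp (L / 2 + a)) :
    ‖TT χ L a - S4 χ L a U‖
      ≤ 8 * (K + 2) * (1 + Real.log (NN L a)) * U ^ 2 * r / Real.exp (L / 2 + a) := by
  set x := NN L a with hx
  set X := Real.exp (L / 2 + a) with hX
  have hX0 : 0 < X := Real.exp_pos _
  have hlog := Real.log_natCast_nonneg x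
  have hUr : (1 : ℝ) ≤ U := by exact_mod_cast hU
  have hL0 : 0 < L := by linarith
  have e : TT χ L a
      = ∑ n ∈ Ioc 0 x, (trunc vonMangoldt U n : ℂ) * (χ n * (wt L a n : ℂ))
        + ∑ n ∈ Ioc 0 x, (((trunc Mr U * ArithmeticFunction.log) n : ℝ) : ℂ) * (χ n * (wt L a n : ℂ))
        - ∑ n ∈ Ioc 0 x, (((trunc Mr U * (trunc vonMangoldt U * Zr)) n : ℝ) : ℂ)
          * (χ n * (wt L a n : ℂ))
        + ∑ n ∈ Ioc 0 x, (((alpha U * beta U) n : ℝ) : ℂ) * (χ n * (wt L a n : ℂ)) := by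
    rw [TT, ← sum_add_distrib, ← sum_sub_distrib, ← sum_add_distrib]
    refine sum_congr rfl fun n _ => ?_
    have h := congrArg (fun f : ArithmeticFunction ℝ => f n) (vaughan U U)
    have h2 : (trunc vonMangoldt U + trunc Mr U * ArithmeticFunction.log
        - trunc Mr U * (trunc vonMangoldt U * Zr)
        + (vonMangoldt - trunc vonMangoldt U) * beta U : ArithmeticFunction ℝ) n
        = trunc vonMangoldt U n + (trunc Mr U * ArithmeticFunction.log : ArithmeticFunction ℝ) n
          - (trunc Mr U * (trunc vonMangoldt U * Zr) : ArithmeticFunction ℝ) n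
          + (alpha U * beta U : ArithmeticFunction ℝ) n := rfl
    have h3 : vonMangoldt n = trunc vonMangoldt U n
          + (trunc Mr U * ArithmeticFunction.log : ArithmeticFunction ℝ) n
          - (trunc Mr U * (trunc vonMangoldt U * Zr) : ArithmeticFunction ℝ) n
          + (alpha U * beta U : ArithmeticFunction ℝ) n := h.trans h2
    rw [h3]
    push_cast
    ring
  have e4 : S4 χ L a U = ∑ n ∈ Ioc 0 x, (((alpha U * beta U) n : ℝ) : ℂ)
      * (χ n * (wt L a n : ℂ)) := by
    rw [S4, conv_sumC (alpha U) (beta U) (fun n => χ (n : ZMod r) * (wt L a n : ℂ))]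
  have h1 : ∑ n ∈ Ioc 0 x, (trunc vonMangoldt U n : ℂ) * (χ n * (wt L a n : ℂ)) = 0 := by
    refine sum_eq_zero fun n _ => ?_
    rw [trunc_apply]
    split_ifs with h
    · have hn : (n : ℝ) ≤ X := (by exact_mod_cast h : (n : ℝ) ≤ U).trans hUX
      rw [wt_left hL0 hn]
      simp
    · simp
  have hy : ∀ d : ℕ, 0 < d → wt L a (d * (x / d + 1)) = 0 := by
    intro d hd
    refine wt_right hL0 ?_
    rw [← hx]
    exact Nat.lt_mul_div_succ x hd
  have h2 : ‖∑ n ∈ Ioc 0 x, (((trunc Mr U * ArithmeticFunction.log) n : ℝ) : ℂ)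
      * (χ n * (wt L a n : ℂ))‖
      ≤ U * (1 * (r * ((1 + (1 + Real.log x) * (K + 1)) * (4 / X)))) := by
    rw [conv_sumC _ _ (fun n : ℕ => χ (n : ZMod r) * (wt L a n : ℂ))]
    refine trunc_sum_leC Mr 1 zero_le_one x U (fun n _ => abs_Mr_le n) _ _ (by positivity) ?_
    intro m hm
    rw [mem_Ioc] at hm
    have h1 := abel_tv (fun k : ℕ => Real.log k * wt L a (m * k)) (fun k => χ ((m * k : ℕ) : ZMod r))
      r (fun y => char_sum_mul_le r χ hχ m y) (x / m) (by rw [hy m hm.1, mul_zero])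
    have h2 := tv_le hK0 hK (a := a) hL hm.1 (fun k : ℕ => Real.log k)
      (fun k => Real.log_natCast_nonneg k) ?_ (x / m) (1 + Real.log x) ?_
    · have h3 : ∑ k ∈ Ioc 0 (x / m), ((ArithmeticFunction.log k : ℝ) : ℂ)
          * (χ ((m * k : ℕ) : ZMod r) * (wt L a (m * k) : ℂ))
          = ∑ k ∈ Ioc 0 (x / m), ((Real.log k * wt L a (m * k) : ℝ) : ℂ)
            * χ ((m * k : ℕ) : ZMod r) := by
        refine sum_congr rfl fun k _ => ?_
        rw [log_apply]
        push_cast
        ring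
      rw [h3]
      refine h1.trans ?_
      exact mul_le_mul_of_nonneg_left h2 (Nat.cast_nonneg r)
    · intro k hk
      have hk' : (0 : ℝ) < k := by exact_mod_cast hk
      refine ⟨log_mono (Nat.le_succ k), ?_⟩
      push_cast
      have h1 : Real.log ((k + 1) / k) ≤ (k + 1) / k - 1 := Real.log_le_sub_one_of_pos (by positivity)
      rw [Real.log_div (by positivity) hk'.ne'] at h1
      have h2 : ((k : ℝ) + 1) / k - 1 = 1 / k := by field_simp; ring
      linarith
    · intro k hk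
      have := log_nat_le (hk.trans (Nat.div_le_self x m))
      linarith
  have h3 : ‖∑ n ∈ Ioc 0 x, (((trunc Mr U * (trunc vonMangoldt U * Zr)) n : ℝ) : ℂ)
      * (χ n * (wt L a n : ℂ))‖
      ≤ U * (1 * (U * ((1 + Real.log x) * (r * ((1 + 1 * (K + 1)) * (4 / X)))))) := by
    rw [conv_sumC _ _ (fun n : ℕ => χ (n : ZMod r) * (wt L a n : ℂ))]
    refine trunc_sum_leC Mr 1 zero_le_one x U (fun n _ => abs_Mr_le n) _ _ (by positivity) ?_
    intro m hm
    rw [mem_Ioc] at hm
    rw [conv_sumC (trunc vonMangoldt U) Zr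
      (fun b => χ ((m * b : ℕ) : ZMod r) * (wt L a (m * b) : ℂ))]
    refine trunc_sum_leC vonMangoldt (1 + Real.log x) (by linarith) (x / m) U ?_ _ _ (by positivity) ?_
    · intro n hn
      rw [mem_Ioc] at hn
      rw [abs_of_nonneg vonMangoldt_nonneg]
      have h1 := log_nat_le (hn.2.trans (Nat.div_le_self x m))
      have h2 : vonMangoldt n ≤ Real.log n := vonMangoldt_le_log
      linarith
    · intro b hb
      rw [mem_Ioc] at hb
      have hmb : 0 < m * b := Nat.mul_pos hm.1 hb.1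
      have h1 := abel_tv (fun k : ℕ => 1 * wt L a (m * b * k))
        (fun k => χ ((m * b * k : ℕ) : ZMod r)) r (fun y => char_sum_mul_le r χ hχ (m * b) y)
        (x / m / b) (by rw [Nat.div_div_eq_div_mul, hy (m * b) hmb, mul_zero])
      have h2 := tv_le hK0 hK (a := a) hL hmb (fun k : ℕ => 1) (fun _ => zero_le_one) ?_
        (x / m / b) 1 (fun _ _ => le_rfl)
      · have h3 : ∑ k ∈ Ioc 0 (x / m / b), (Zr k : ℂ)
            * (χ ((m * (b * k) : ℕ) : ZMod r) * (wt L a (m * (b * k)) : ℂ))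
            = ∑ k ∈ Ioc 0 (x / m / b), ((1 * wt L a (m * b * k) : ℝ) : ℂ)
              * χ ((m * b * k : ℕ) : ZMod r) := by
          refine sum_congr rfl fun k hk => ?_
          rw [Zr_apply k (mem_Ioc.mp hk).1.ne', ← mul_assoc m b k]
          push_cast
          ring
        rw [h3]
        exact h1.trans (mul_le_mul_of_nonneg_left h2 (Nat.cast_nonneg r))
      · intro k hk
        refine ⟨le_rfl, ?_⟩
        rw [sub_self]
        positivity
  rw [e, e4, h1, zero_add, add_sub_cancel_right]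
  refine (norm_sub_le _ _).trans ((add_le_add h2 h3).trans ?_)
  set l := Real.log x with hl
  have hr0 : (0 : ℝ) ≤ r := Nat.cast_nonneg r
  have h5 : (1 + (1 + l) * (K + 1)) ≤ (1 + l) * (K + 2) := by nlinarith
  have h6 : (U : ℝ) ≤ U ^ 2 := by nlinarith
  calc (U : ℝ) * (1 * (r * ((1 + (1 + l) * (K + 1)) * (4 / X))))
        + U * (1 * (U * ((1 + l) * (r * ((1 + 1 * (K + 1)) * (4 / X))))))
      ≤ (U : ℝ) ^ 2 * (1 * (r * (((1 + l) * (K + 2)) * (4 / X))))
        + U * (1 * (U * ((1 + l) * (r * ((1 + 1 * (K + 1)) * (4 / X)))))) := by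
        refine add_le_add ?_ le_rfl
        refine mul_le_mul h6 ?_ (by positivity) (by positivity)
        refine mul_le_mul_of_nonneg_left ?_ zero_le_one
        refine mul_le_mul_of_nonneg_left ?_ hr0
        exact mul_le_mul_of_nonneg_right h5 (by positivity)
    _ = _ := by ring

end Pool.Agent.helper85.MT
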