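import Pool.Agent.helper85.MT.Large

/-!
# AN8: small conductors at a good scale (from AN2', AN3', AN7)
-/

namespace Pool.Agent.helper39.MT

open Finset Real ArithmeticFunction

/-- AN8, from the statements of AN2', AN3' and AN7. -/
theorem small_T_of
    (hLip : ∃ C : ℝ, 0 < C ∧ ∀ q : ℕ, 2 ≤ q → ∀ χ : DirichletCharacter ℂ q, χ ≠ 1 →
      ∀ s t : ℂ, 1 < s.re → s.re ≤ 2 → |s.im| ≤ 1 → 1 < t.re → t.re ≤ 2 → |t.im| ≤ 1 →
      ‖DD χ 0 s - DD χ 0 t‖ ≤ C * (1 + Real.log q) ^ 2 * ‖s - t‖)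
    (hGG : ∀ K : ℕ, ∃ C : ℝ, ∃ E : ℕ, 0 < C ∧ ∀ q : ℕ, 2 ≤ q →
      ∀ χ : DirichletCharacter ℂ q, χ ≠ 1 → ∀ s : ℂ, 1 < s.re → s.re ≤ 2 → |s.im| ≤ 1 →
      ∀ b : ℝ, 0 < b → b ≤ 1 → b ≤ ‖DD χ 0 s‖ → ∀ j ≤ K,
        ‖GG χ j s‖ ≤ C * ((1 + Real.log q) / b) ^ E)
    (hTT : ∀ K M A : ℕ, 0 < A → ∃ C : ℝ, 0 < C ∧ ∀ L : ℝ, 2 ≤ L → ∀ q : ℕ, 0 < q →
      ∀ χ : DirichletCharacter ℂ q, ∀ t₀ B : ℝ, 0 < t₀ → 0 ≤ B →
      (∀ j ≤ K, ∀ t : ℝ, |t| ≤ t₀ → ‖GG χ j (1 + 1 / (L : ℂ) + t * Complex.I)‖ ≤ B) →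
      ‖TT χ L (Real.log A)‖ ≤ C * (B / L ^ K + L ^ 2 * (1 / (t₀ * L)) ^ M))
    (C₀ K A : ℕ) (hA : 0 < A) : ∃ L₁ : ℝ, ∀ L : ℝ, L₁ ≤ L → Good C₀ L →
    ∀ q : ℕ, 2 ≤ q → (q : ℝ) ≤ L ^ C₀ → ∀ χ : DirichletCharacter ℂ q, χ.IsPrimitive →
    ‖TT χ L (Real.log A)‖ ≤ 1 / L ^ K := by
  obtain ⟨Cl, hCl, hLip⟩ := hLip
  obtain ⟨Cg, E, hCg, hGG⟩ := hGG (K + 1)
  obtain ⟨Ct, hCt, hTT⟩ := hTT (K + 1) (K + 4) A hA
  -- eventual inequalities in terms of `l = log L`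
  have hev : ∀ᶠ L : ℝ in Filter.atTop,
      2 ≤ L ∧ 1 ≤ Real.log L ∧ 2 * Cl * (1 + (C₀ : ℝ)) ^ 2 ≤ Real.log L ^ 2 ∧
      2 * Ct * (Cg * (2 * (1 + (C₀ : ℝ))) ^ E) * Real.log L ^ (9 * E) ≤ L ∧
      2 * Ct * Real.log L ^ (12 * (K + 4)) ≤ L ^ 2 := by
    have hlogt := Real.tendsto_log_atTop
    have hpow : ∀ (c : ℝ) (n : ℕ), ∀ᶠ L : ℝ in Filter.atTop, c * Real.log L ^ n ≤ L := by
      intro c n
      have h2 : (fun x : ℝ => Real.log x ^ n) =o[Filter.atTop] (fun x : ℝ => x) := by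
        have h3 := isLittleO_log_rpow_rpow_atTop (s := 1) (n : ℝ) one_pos
        simpa using h3
      have h4 := h2.const_mul_left c
      have h5 := h4.bound (c := 1) one_pos
      filter_upwards [h5, Filter.eventually_ge_atTop (0 : ℝ)] with x hx hx0
      rw [one_mul, Real.norm_eq_abs, Real.norm_eq_abs, abs_of_nonneg hx0] at hx
      exact (le_abs_self _).trans hx
    filter_upwards [Filter.eventually_ge_atTop (2 : ℝ), hlogt.eventually_ge_atTop 1,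
      hlogt.eventually_ge_atTop (2 * Cl * (1 + (C₀ : ℝ)) ^ 2),
      hpow (2 * Ct * (Cg * (2 * (1 + (C₀ : ℝ))) ^ E)) (9 * E),
      hpow (2 * Ct) (12 * (K + 4))] with L h1 h2 h3 h4 h5
    refine ⟨h1, h2, ?_, h4, ?_⟩
    · nlinarith
    · nlinarith
  rw [Filter.eventually_atTop] at hev
  obtain ⟨L₁, hL₁⟩ := hev
  refine ⟨L₁, ?_⟩
  intro L hL hgood q hq hqL χ hχ
  obtain ⟨hL2, hl1, hE1, hE2, hE3⟩ := hL₁ L hL
  set l := Real.log L with hl
  have hL0 : 0 < L := by linarith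
  have hl0 : 0 < l := by linarith
  have hχ1 : χ ≠ 1 := Pool.Agent.helper85.MT.prim_ne_one hq hχ
  have hq0 : (0 : ℝ) < q := by exact_mod_cast (by omega : 0 < q)
  have hC0 : (0 : ℝ) ≤ C₀ := Nat.cast_nonneg C₀
  -- log q
  have hlogq : Real.log q ≤ C₀ * l := by
    have h1 := Real.log_le_log hq0 hqL
    rwa [Real.log_pow] at h1
  have hlogq0 : 0 ≤ Real.log q := Real.log_natCast_nonneg q
  have hlq : 1 + Real.log q ≤ (1 + C₀) * l := by nlinarith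
  -- lower bound near the real point
  have hg := hgood q hq hqL χ hχ
  set t₀ : ℝ := 1 / l ^ 12 with ht₀
  have ht₀0 : 0 < t₀ := by positivity
  have ht₀1 : t₀ ≤ 1 := by
    rw [ht₀, div_le_one (by positivity)]
    exact one_le_pow₀ hl1
  set b : ℝ := 1 / (2 * l ^ 8) with hb
  have hb0 : 0 < b := by positivity
  have hb1 : b ≤ 1 := by
    rw [hb, div_le_one (by positivity)]
    have := one_le_pow₀ hl1 (n := 8)
    linarith
  set B : ℝ := Cg * (2 * (1 + (C₀ : ℝ))) ^ E * l ^ (9 * E) with hB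
  have hB0 : 0 ≤ B := by positivity
  have hLc : (1 / (L : ℂ)) = ((1 / L : ℝ) : ℂ) := by push_cast; rfl
  have hre : ∀ t : ℝ, (1 + 1 / (L : ℂ) + t * Complex.I).re = 1 + 1 / L := by
    intro t
    rw [hLc]
    simp
  have him : ∀ t : ℝ, (1 + 1 / (L : ℂ) + t * Complex.I).im = t := by
    intro t
    rw [hLc]
    simp
  have hre0 : (1 + 1 / (L : ℂ)).re = 1 + 1 / L := by
    rw [hLc]
    simp
  have him0 : (1 + 1 / (L : ℂ)).im = 0 := by
    rw [hLc]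
    simp
  have hLinv : 0 < 1 / L := by positivity
  have hLinv1 : 1 / L ≤ 1 := by rw [div_le_one hL0]; linarith
  have hbound : ∀ j ≤ K + 1, ∀ t : ℝ, |t| ≤ t₀ →
      ‖GG χ j (1 + 1 / (L : ℂ) + t * Complex.I)‖ ≤ B := by
    intro j hj t ht
    have h1 := hLip q hq χ hχ1 (1 + 1 / (L : ℂ)) (1 + 1 / (L : ℂ) + t * Complex.I)
      (by rw [hre0]; linarith) (by rw [hre0]; linarith) (by rw [him0, abs_zero]; exact zero_le_one)
      (by rw [hre]; linarith) (by rw [hre]; linarith) (by rw [him]; linarith)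
    have h2 : ‖(1 + 1 / (L : ℂ)) - (1 + 1 / (L : ℂ) + t * Complex.I)‖ = |t| := by
      rw [sub_add_cancel_left, norm_neg, norm_mul, Complex.norm_I, mul_one, Complex.norm_real,
        Real.norm_eq_abs]
    rw [h2] at h1
    have h3 : Cl * (1 + Real.log q) ^ 2 * |t| ≤ b := by
      calc Cl * (1 + Real.log q) ^ 2 * |t| ≤ Cl * ((1 + C₀) * l) ^ 2 * t₀ := by
            gcongr
        _ = (2 * Cl * (1 + (C₀ : ℝ)) ^ 2) * (l ^ 2 * t₀ / 2) := by ring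
        _ ≤ l ^ 2 * (l ^ 2 * t₀ / 2) := mul_le_mul_of_nonneg_right hE1 (by positivity)
        _ = b := by
            rw [ht₀, hb]
            field_simp
    have h4 : b ≤ ‖DD χ 0 (1 + 1 / (L : ℂ) + t * Complex.I)‖ := by
      have h5 : 1 / l ^ 8 = b + b := by rw [hb]; field_simp; ring
      have h6 : ‖DD χ 0 (1 + 1 / (L : ℂ))‖ ≤ ‖DD χ 0 (1 + 1 / (L : ℂ))
          - DD χ 0 (1 + 1 / (L : ℂ) + t * Complex.I)‖ + ‖DD χ 0 (1 + 1 / (L : ℂ) + t * Complex.I)‖ := by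
        have := norm_add_le (DD χ 0 (1 + 1 / (L : ℂ)) - DD χ 0 (1 + 1 / (L : ℂ) + t * Complex.I))
          (DD χ 0 (1 + 1 / (L : ℂ) + t * Complex.I))
        rwa [sub_add_cancel] at this
      linarith
    have h7 := hGG q hq χ hχ1 (1 + 1 / (L : ℂ) + t * Complex.I) (by rw [hre]; linarith)
      (by rw [hre]; linarith) (by rw [him]; linarith) b hb0 hb1 h4 j hj
    refine h7.trans ?_
    have h8 : (1 + Real.log q) / b ≤ (2 * (1 + C₀)) * l ^ 9 := by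
      rw [div_le_iff₀ hb0, hb]
      have : 2 * (1 + (C₀ : ℝ)) * l ^ 9 * (1 / (2 * l ^ 8)) = (1 + C₀) * l := by field_simp
      rw [this]
      exact hlq
    calc Cg * ((1 + Real.log q) / b) ^ E ≤ Cg * ((2 * (1 + C₀)) * l ^ 9) ^ E := by
          refine mul_le_mul_of_nonneg_left ?_ hCg.le
          exact pow_le_pow_left₀ (by positivity) h8 E
      _ = B := by rw [hB, mul_pow, ← pow_mul]; ring
  have hfin := hTT L hL2 q (by omega) χ t₀ B ht₀0 hB0 hbound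
  refine hfin.trans ?_
  have h1 : Ct * (B / L ^ (K + 1)) ≤ 1 / (2 * L ^ K) := by
    rw [pow_succ, mul_div_assoc', div_le_div_iff₀ (by positivity) (by positivity)]
    have : 2 * Ct * B ≤ L := by
      rw [hB]
      linarith
    have hLK : 0 < L ^ K := by positivity
    have := mul_le_mul_of_nonneg_right this hLK.le
    linarith
  have h2 : Ct * (L ^ 2 * (1 / (t₀ * L)) ^ (K + 4)) ≤ 1 / (2 * L ^ K) := by
    have e : (1 / (t₀ * L)) ^ (K + 4) = l ^ (12 * (K + 4)) / L ^ (K + 4) := by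
      rw [ht₀]
      have : 1 / (1 / l ^ 12 * L) = l ^ 12 / L := by field_simp
      rw [this, div_pow, ← pow_mul]
    rw [e]
    have e2 : Ct * (L ^ 2 * (l ^ (12 * (K + 4)) / L ^ (K + 4)))
        = (2 * Ct * l ^ (12 * (K + 4))) / (2 * L ^ K * L ^ 2) := by
      rw [pow_add L K 4]
      field_simp
    rw [e2, div_le_div_iff₀ (by positivity) (by positivity)]
    have hLK : 0 < 2 * L ^ K := by positivity
    nlinarith
  calc Ct * (B / L ^ (K + 1) + L ^ 2 * (1 / (t₀ * L)) ^ (K + 4))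
      = Ct * (B / L ^ (K + 1)) + Ct * (L ^ 2 * (1 / (t₀ * L)) ^ (K + 4)) := by ring
    _ ≤ 1 / (2 * L ^ K) + 1 / (2 * L ^ K) := add_le_add h1 h2
    _ = 1 / L ^ K := by field_simp; ring

end Pool.Agent.helper39.MT
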