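import Pool.Agent.helper85.MT.MLS
import Pool.Agent.helper85.BVP.TypeII

/-!
# Vaughan's identity for character sums: type I terms
-/

namespace Pool.Agent.helper85.MT

open Finset Real ArithmeticFunction Pool.Agent.helper85.BVP

/-- a double sum over the hyperbola region, arranged by the product. -/
lemma hyper_sum (G : ℕ → ℕ → ℂ) (x : ℕ) :
    ∑ a ∈ Ioc 0 x, ∑ b ∈ Ioc 0 (x / a), G a b
      = ∑ n ∈ Ioc 0 x, ∑ p ∈ n.divisorsAntidiagonal, G p.1 p.2 := by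
  have h1 : ∑ n ∈ Ioc 0 x, ∑ p ∈ n.divisorsAntidiagonal, G p.1 p.2
      = ∑ p ∈ Ioc 0 x ×ˢ Ioc 0 x with p.1 * p.2 ≤ x, G p.1 p.2 := by
    trans ∑ n ∈ Ioc 0 x, ∑ p ∈ Ioc 0 x ×ˢ Ioc 0 x with p.1 * p.2 = n, G p.1 p.2
    · refine sum_congr rfl fun n hn ↦ ?_
      simp only [mem_Ioc] at hn
      rw [Nat.divisorsAntidiagonal_eq_prod_filter_of_le hn.1.ne' hn.2]
    · simp_rw [sum_filter]
      rw [sum_comm]
      exact sum_congr rfl fun _ _ ↦ (by simp_all)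
  rw [h1, sum_filter, sum_product]
  refine sum_congr rfl fun n hn ↦ ?_
  rw [mem_Ioc] at hn
  rw [← sum_filter]
  refine sum_congr ?_ (fun _ _ => rfl)
  ext m
  rw [mem_filter, mem_Ioc, mem_Ioc, Nat.le_div_iff_mul_le hn.1]
  constructor
  · rintro ⟨h1, h2⟩
    have h3 : n * m ≤ x := by rw [mul_comm]; exact h2
    exact ⟨⟨h1, (Nat.le_mul_of_pos_left m hn.1).trans h3⟩, h3⟩
  · rintro ⟨⟨h1, h2⟩, h3⟩
    exact ⟨h1, by rw [mul_comm]; exact h3⟩

/-- weighted sum of a Dirichlet convolution. -/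
lemma conv_sumC (f g : ArithmeticFunction ℝ) (w : ℕ → ℂ) (x : ℕ) :
    ∑ n ∈ Ioc 0 x, (((f * g) n : ℝ) : ℂ) * w n
      = ∑ a ∈ Ioc 0 x, (f a : ℂ) * ∑ b ∈ Ioc 0 (x / a), (g b : ℂ) * w (a * b) := by
  simp_rw [mul_sum]
  rw [hyper_sum (fun a b => (f a : ℂ) * ((g b : ℂ) * w (a * b)))]
  refine sum_congr rfl fun n _ => ?_
  rw [mul_apply]
  push_cast
  rw [sum_mul]
  refine sum_congr rfl fun p hp => ?_
  rw [(Nat.mem_divisorsAntidiagonal.mp hp).1]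
  ring

/-- partial summation for a monotone weight. -/
lemma abel_boundC (g : ℕ → ℝ) (κ : ℕ → ℂ) (hg : Monotone g) (hg0 : 0 ≤ g 0) (B : ℝ)
    (hB : ∀ y, ‖∑ k ∈ Ioc 0 y, κ k‖ ≤ B) (y : ℕ) :
    ‖∑ k ∈ Ioc 0 y, (g k : ℂ) * κ k‖ ≤ 2 * B * g y := by
  have hB0 : 0 ≤ B := (norm_nonneg _).trans (hB 0)
  have key : ∀ y : ℕ, ‖∑ k ∈ Ioc 0 y, (g k : ℂ) * κ k - (g y : ℂ) * ∑ k ∈ Ioc 0 y, κ k‖
      ≤ B * (g y - g 0) := by
    intro y
    induction y with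
    | zero => simp
    | succ y ih =>
      rw [sum_Ioc_succ_top (Nat.zero_le y), sum_Ioc_succ_top (Nat.zero_le y)]
      have e : ∑ k ∈ Ioc 0 y, (g k : ℂ) * κ k + (g (y + 1) : ℂ) * κ (y + 1)
          - (g (y + 1) : ℂ) * (∑ k ∈ Ioc 0 y, κ k + κ (y + 1))
          = (∑ k ∈ Ioc 0 y, (g k : ℂ) * κ k - (g y : ℂ) * ∑ k ∈ Ioc 0 y, κ k)
            - ((g (y + 1) - g y : ℝ) : ℂ) * ∑ k ∈ Ioc 0 y, κ k := by push_cast; ring
      rw [e]
      have h1 : 0 ≤ g (y + 1) - g y := sub_nonneg.mpr (hg (Nat.le_succ y))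
      have h2 : ‖((g (y + 1) - g y : ℝ) : ℂ) * ∑ k ∈ Ioc 0 y, κ k‖ ≤ (g (y + 1) - g y) * B := by
        rw [norm_mul, Complex.norm_real, Real.norm_of_nonneg h1]
        exact mul_le_mul_of_nonneg_left (hB y) h1
      calc _ ≤ ‖∑ k ∈ Ioc 0 y, (g k : ℂ) * κ k - (g y : ℂ) * ∑ k ∈ Ioc 0 y, κ k‖
            + ‖((g (y + 1) - g y : ℝ) : ℂ) * ∑ k ∈ Ioc 0 y, κ k‖ := norm_sub_le _ _
        _ ≤ B * (g y - g 0) + (g (y + 1) - g y) * B := add_le_add ih h2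
        _ = _ := by ring
  have h1 := key y
  have hgy : 0 ≤ g y := hg0.trans (hg (Nat.zero_le y))
  have h2 : ‖(g y : ℂ) * ∑ k ∈ Ioc 0 y, κ k‖ ≤ g y * B := by
    rw [norm_mul, Complex.norm_real, Real.norm_of_nonneg hgy]
    exact mul_le_mul_of_nonneg_left (hB y) hgy
  have h3 : ‖∑ k ∈ Ioc 0 y, (g k : ℂ) * κ k‖
      ≤ ‖∑ k ∈ Ioc 0 y, (g k : ℂ) * κ k - (g y : ℂ) * ∑ k ∈ Ioc 0 y, κ k‖
      + ‖(g y : ℂ) * ∑ k ∈ Ioc 0 y, κ k‖ := by
    have := norm_add_le (∑ k ∈ Ioc 0 y, (g k : ℂ) * κ k - (g y : ℂ) * ∑ k ∈ Ioc 0 y, κ k)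
      ((g y : ℂ) * ∑ k ∈ Ioc 0 y, κ k)
    rwa [sub_add_cancel] at this
  nlinarith [mul_nonneg hB0 hg0]

section
variable (r : ℕ) [NeZero r] (χ : DirichletCharacter ℂ r)

lemma norm_char_le (n : ZMod r) : ‖χ n‖ ≤ 1 := DirichletCharacter.norm_le_one χ n

/-- sums of a non-principal character are at most the modulus. -/
lemma char_sum_le (hχ : χ ≠ 1) (y : ℕ) : ‖∑ k ∈ Ioc 0 y, χ k‖ ≤ r := by
  have hr : 0 < r := Nat.pos_of_ne_zero (NeZero.ne r)
  have hper : ∀ y : ℕ, ∑ k ∈ Ioc 0 (y + r), χ k = ∑ k ∈ Ioc 0 y, χ k := by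
    intro y
    rw [← sum_Ioc_consecutive _ (Nat.zero_le y) (Nat.le_add_right y r)]
    have h1 : ∑ k ∈ Ioc y (y + r), χ (k : ZMod r) = ∑ x : ZMod r, χ x := by
      refine sum_bij (fun k _ => (k : ZMod r)) (fun _ _ => mem_univ _) ?_ ?_ (fun _ _ => rfl)
      · intro k hk k' hk' h
        rw [mem_Ioc] at hk hk'
        have h2 := (ZMod.natCast_eq_natCast_iff k k' r).mp h
        rcases le_total k k' with hle | hle
        · have h3 := (Nat.modEq_iff_dvd' hle).mp h2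
          have h4 := Nat.eq_zero_of_dvd_of_lt h3 (by omega)
          omega
        · have h3 := (Nat.modEq_iff_dvd' hle).mp h2.symm
          have h4 := Nat.eq_zero_of_dvd_of_lt h3 (by omega)
          omega
      · intro x _
        -- the representative in `(y, y + r]`
        refine ⟨y + 1 + (x - ((y + 1 : ℕ) : ZMod r)).val, ?_, ?_⟩
        · rw [mem_Ioc]
          have := ZMod.val_lt (x - ((y + 1 : ℕ) : ZMod r))
          omega
        · rw [Nat.cast_add, ZMod.natCast_zmod_val]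
          ring
    rw [h1, MulChar.sum_eq_zero_of_ne_one hχ, add_zero]
  have hmul : ∀ t y : ℕ, ∑ k ∈ Ioc 0 (y + r * t), χ k = ∑ k ∈ Ioc 0 y, χ k := by
    intro t
    induction t with
    | zero => intro y; rw [mul_zero, add_zero]
    | succ t ih =>
      intro y
      rw [show y + r * (t + 1) = (y + r * t) + r by ring, hper, ih]
  have h1 : ∑ k ∈ Ioc 0 y, χ k = ∑ k ∈ Ioc 0 (y % r), χ k := by
    conv_lhs => rw [← Nat.mod_add_div y r]
    exact hmul _ _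
  rw [h1]
  refine (norm_sum_le _ _).trans ?_
  have h2 : ∑ k ∈ Ioc 0 (y % r), ‖χ (k : ZMod r)‖ ≤ ∑ k ∈ Ioc 0 (y % r), (1 : ℝ) :=
    sum_le_sum fun k _ => norm_char_le r χ _
  refine h2.trans ?_
  rw [sum_const, nsmul_eq_mul, mul_one, Nat.card_Ioc, Nat.sub_zero]
  exact_mod_cast (Nat.mod_lt y hr).le

lemma char_sum_mul_le (hχ : χ ≠ 1) (d y : ℕ) : ‖∑ k ∈ Ioc 0 y, χ ((d * k : ℕ) : ZMod r)‖ ≤ r := by
  have h1 : ∑ k ∈ Ioc 0 y, χ ((d * k : ℕ) : ZMod r) = χ (d : ZMod r) * ∑ k ∈ Ioc 0 y, χ k := by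
    rw [mul_sum]
    refine sum_congr rfl fun k _ => ?_
    rw [Nat.cast_mul, map_mul]
  rw [h1, norm_mul]
  calc _ ≤ 1 * (r : ℝ) := mul_le_mul (norm_char_le r χ _) (char_sum_le r χ hχ y) (norm_nonneg _)
        zero_le_one
    _ = _ := one_mul _

end

/-- a sum against a truncated function. -/
lemma trunc_sum_leC (f : ArithmeticFunction ℝ) (F : ℝ) (hF : 0 ≤ F) (x U : ℕ)
    (hf : ∀ n ∈ Ioc 0 x, |f n| ≤ F) (G : ℕ → ℂ) (T : ℝ) (hT : 0 ≤ T)
    (hG : ∀ a ∈ Ioc 0 x, ‖G a‖ ≤ T) :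
    ‖∑ a ∈ Ioc 0 x, (trunc f U a : ℂ) * G a‖ ≤ U * (F * T) := by
  refine (norm_sum_le _ _).trans ?_
  have h1 : ∀ n ∈ Ioc 0 x, ‖(trunc f U n : ℂ) * G n‖ ≤ if n ≤ U then F * T else 0 := by
    intro n hn
    rw [trunc_apply]
    split_ifs with h
    · rw [norm_mul, Complex.norm_real, Real.norm_eq_abs]
      exact mul_le_mul (hf n hn) (hG n hn) (norm_nonneg _) hF
    · simp
  refine (sum_le_sum h1).trans ?_
  rw [← sum_filter, sum_const, nsmul_eq_mul]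
  refine mul_le_mul_of_nonneg_right ?_ (by positivity)
  have : (Ioc 0 x).filter (fun n => n ≤ U) ⊆ Ioc 0 U := by
    intro n hn
    rw [mem_filter, mem_Ioc] at hn
    rw [mem_Ioc]
    exact ⟨hn.1.1, hn.2⟩
  have h2 := card_le_card this
  rw [Nat.card_Ioc, Nat.sub_zero] at h2
  exact_mod_cast h2

section
variable (r : ℕ) [NeZero r] (χ : DirichletCharacter ℂ r)

/-- Vaughan's decomposition of the character sum over primes. -/
lemma single_char (hχ : χ ≠ 1) (x U : ℕ) (hU : 1 ≤ U) :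
    ‖∑ n ∈ Ioc 0 x, ((vonMangoldt n : ℝ) : ℂ) * χ n‖ ≤ 4 * r * U ^ 2 * (1 + Real.log x)
      + ‖∑ a ∈ Ioc 0 x, (alpha U a : ℂ) * ∑ b ∈ Ioc 0 (x / a), (beta U b : ℂ)
          * χ ((a * b : ℕ) : ZMod r)‖ := by
  have hlog := Real.log_natCast_nonneg x
  have hUr : (1 : ℝ) ≤ U := by exact_mod_cast hU
  have hr1 : (1 : ℝ) ≤ r := by exact_mod_cast Nat.one_le_iff_ne_zero.mpr (NeZero.ne r)
  have e : ∑ n ∈ Ioc 0 x, ((vonMangoldt n : ℝ) : ℂ) * χ n
      = ∑ n ∈ Ioc 0 x, (trunc vonMangoldt U n : ℂ) * χ n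
        + ∑ n ∈ Ioc 0 x, (((trunc Mr U * ArithmeticFunction.log) n : ℝ) : ℂ) * χ n
        - ∑ n ∈ Ioc 0 x, (((trunc Mr U * (trunc vonMangoldt U * Zr)) n : ℝ) : ℂ) * χ n
        + ∑ n ∈ Ioc 0 x, (((alpha U * beta U) n : ℝ) : ℂ) * χ n := by
    rw [← sum_add_distrib, ← sum_sub_distrib, ← sum_add_distrib]
    refine sum_congr rfl fun n _ => ?_
    have h := congrArg (fun f : ArithmeticFunction ℝ => f n) (vaughan U U)
    have h2 : (trunc vonMangoldt U + trunc Mr U * ArithmeticFunction.log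
        - trunc Mr U * (trunc vonMangoldt U * Zr)
        + (vonMangoldt - trunc vonMangoldt U) * beta U : ArithmeticFunction ℝ) n
        = trunc vonMangoldt U n + (trunc Mr U * ArithmeticFunction.log : ArithmeticFunction ℝ) n
          - (trunc Mr U * (trunc vonMangoldt U * Zr) : ArithmeticFunction ℝ) n
          + (alpha U * beta U : ArithmeticFunction ℝ) n := rfl
    rw [h, h2]
    push_cast
    ring
  rw [e, ← conv_sumC (alpha U) (beta U) (fun n => χ (n : ZMod r))]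
  have h1 : ‖∑ n ∈ Ioc 0 x, (trunc vonMangoldt U n : ℂ) * χ n‖ ≤ U * ((1 + Real.log x) * 1) := by
    refine trunc_sum_leC vonMangoldt (1 + Real.log x) (by linarith) x U ?_ _ 1 zero_le_one
      (fun a _ => norm_char_le r χ _)
    intro n hn
    rw [mem_Ioc] at hn
    rw [abs_of_nonneg vonMangoldt_nonneg]
    have h1 := log_nat_le hn.2
    have h2 : vonMangoldt n ≤ Real.log n := vonMangoldt_le_log
    linarith
  have h2 : ‖∑ n ∈ Ioc 0 x, (((trunc Mr U * ArithmeticFunction.log) n : ℝ) : ℂ) * χ n‖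
      ≤ U * (1 * (2 * r * (1 + Real.log x))) := by
    rw [conv_sumC]
    refine trunc_sum_leC Mr 1 zero_le_one x U (fun n _ => abs_Mr_le n) _ _ (by positivity) ?_
    intro a ha
    have h1 := abel_boundC (fun n : ℕ => Real.log n) (fun k => χ ((a * k : ℕ) : ZMod r)) log_mono
      (by simp) r (fun y => char_sum_mul_le r χ hχ a y) (x / a)
    have h2 := log_nat_le (Nat.div_le_self x a)
    simp only [log_apply]
    refine h1.trans ?_
    refine mul_le_mul_of_nonneg_left (by linarith) (by positivity)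
  have h3 : ‖∑ n ∈ Ioc 0 x, (((trunc Mr U * (trunc vonMangoldt U * Zr)) n : ℝ) : ℂ) * χ n‖
      ≤ U * (1 * (U * ((1 + Real.log x) * r))) := by
    rw [conv_sumC]
    refine trunc_sum_leC Mr 1 zero_le_one x U (fun n _ => abs_Mr_le n) _ _ (by positivity) ?_
    intro a ha
    rw [conv_sumC (trunc vonMangoldt U) Zr (fun b => χ ((a * b : ℕ) : ZMod r))]
    refine trunc_sum_leC vonMangoldt (1 + Real.log x) (by linarith) (x / a) U ?_ _ _ (by positivity) ?_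
    · intro n hn
      rw [mem_Ioc] at hn
      rw [abs_of_nonneg vonMangoldt_nonneg]
      have h1 := log_nat_le (hn.2.trans (Nat.div_le_self x a))
      have h2 : vonMangoldt n ≤ Real.log n := vonMangoldt_le_log
      linarith
    · intro b _
      have h1 : ∑ k ∈ Ioc 0 (x / a / b), (Zr k : ℂ) * χ ((a * (b * k) : ℕ) : ZMod r)
          = ∑ k ∈ Ioc 0 (x / a / b), χ ((a * b * k : ℕ) : ZMod r) := by
        refine sum_congr rfl fun k hk => ?_
        rw [Zr_apply k (mem_Ioc.mp hk).1.ne', Complex.ofReal_one, one_mul, mul_assoc]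
      rw [h1]
      exact char_sum_mul_le r χ hχ (a * b) _
  set S1 := ∑ n ∈ Ioc 0 x, (trunc vonMangoldt U n : ℂ) * χ n
  set S2 := ∑ n ∈ Ioc 0 x, (((trunc Mr U * ArithmeticFunction.log) n : ℝ) : ℂ) * χ n
  set S3 := ∑ n ∈ Ioc 0 x, (((trunc Mr U * (trunc vonMangoldt U * Zr)) n : ℝ) : ℂ) * χ n
  set S4 := ∑ n ∈ Ioc 0 x, (((alpha U * beta U) n : ℝ) : ℂ) * χ n
  have h4 : ‖S1 + S2 - S3 + S4‖ ≤ ‖S1‖ + ‖S2‖ + ‖S3‖ + ‖S4‖ := by
    have a1 := norm_add_le (S1 + S2 - S3) S4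
    have a2 := norm_sub_le (S1 + S2) S3
    have a3 := norm_add_le S1 S2
    linarith
  set L := 1 + Real.log x with hL
  have hL0 : 0 ≤ L := by linarith
  have hUU : (U : ℝ) ≤ U ^ 2 := by nlinarith
  have h5 : (U : ℝ) * (L * 1) ≤ r * U ^ 2 * L := by
    calc (U : ℝ) * (L * 1) = 1 * U * L := by ring
      _ ≤ r * U ^ 2 * L := by gcongr
  have h6 : (U : ℝ) * (1 * (2 * r * L)) ≤ 2 * r * U ^ 2 * L := by
    calc (U : ℝ) * (1 * (2 * r * L)) = 2 * r * U * L := by ring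
      _ ≤ 2 * r * U ^ 2 * L := by gcongr
  have h7 : (U : ℝ) * (1 * (U * (L * r))) = r * U ^ 2 * L := by ring
  linarith

end

end Pool.Agent.helper85.MT
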