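import Pool.Agent.helper85.MT.MLS
import Pool.Agent.helper85.BVP.TypeII

/-!
# The large sieve on dyadic blocks
-/

namespace Pool.Agent.helper85.MT

open Finset Real ArithmeticFunction Pool.Agent.helper85.BVP

lemma sum_dyadic {M : Type*} [AddCommMonoid M] (U : ℕ) (G : ℕ → M) (J : ℕ) :
    ∑ n ∈ Ioc U (U * 2 ^ J), G n = ∑ j ∈ range J, ∑ n ∈ Ioc (U * 2 ^ j) (U * 2 ^ (j + 1)), G n := by
  induction J with
  | zero => simp
  | succ J ih =>
    rw [sum_range_succ, ← ih, sum_Ioc_consecutive]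
    · exact Nat.le_mul_of_pos_right U (by positivity)
    · exact Nat.mul_le_mul_left U (Nat.pow_le_pow_right (by norm_num) (Nat.le_succ J))

open Classical in
/-- the large sieve on dyadic blocks. -/
theorem ls_dyadic (Q U J : ℕ) (hQU : Q ^ 2 ≤ U) (f : ℕ → ℂ) :
    ∑ r ∈ Icc 1 Q, (r : ℝ) / Nat.totient r * ∑ χ : DirichletCharacter ℂ r with χ.IsPrimitive,
        ‖∑ n ∈ Ioc U (U * 2 ^ J), f n * χ n‖ ^ 2
      ≤ 10 * J * ∑ n ∈ Ioc U (U * 2 ^ J), (n : ℝ) * ‖f n‖ ^ 2 := by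
  have hpt : ∀ (r : ℕ) (χ : DirichletCharacter ℂ r), ‖∑ n ∈ Ioc U (U * 2 ^ J), f n * χ n‖ ^ 2
      ≤ J * ∑ j ∈ range J, ‖∑ n ∈ Ioc (U * 2 ^ j) (U * 2 ^ (j + 1)), f n * χ n‖ ^ 2 := by
    intro r χ
    rw [sum_dyadic]
    have h1 := norm_sum_le (range J) (fun j => ∑ n ∈ Ioc (U * 2 ^ j) (U * 2 ^ (j + 1)), f n * χ n)
    have h2 := sq_sum_le_card_mul_sum_sq (s := range J)
      (f := fun j => ‖∑ n ∈ Ioc (U * 2 ^ j) (U * 2 ^ (j + 1)), f n * χ n‖)
    rw [card_range] at h2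
    exact (pow_le_pow_left₀ (norm_nonneg _) h1 2).trans h2
  calc _ ≤ ∑ r ∈ Icc 1 Q, (r : ℝ) / Nat.totient r * ∑ χ : DirichletCharacter ℂ r with χ.IsPrimitive,
        (J * ∑ j ∈ range J, ‖∑ n ∈ Ioc (U * 2 ^ j) (U * 2 ^ (j + 1)), f n * χ n‖ ^ 2) := by
        refine sum_le_sum fun r _ => ?_
        refine mul_le_mul_of_nonneg_left ?_ (by positivity)
        exact sum_le_sum fun χ _ => hpt r χ
    _ = J * ∑ j ∈ range J, ∑ r ∈ Icc 1 Q, (r : ℝ) / Nat.totient r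
          * ∑ χ : DirichletCharacter ℂ r with χ.IsPrimitive,
            ‖∑ n ∈ Ioc (U * 2 ^ j) (U * 2 ^ (j + 1)), f n * χ n‖ ^ 2 := by
        rw [sum_comm (s := range J), mul_sum]
        refine sum_congr rfl fun r _ => ?_
        rw [← mul_sum, ← mul_sum, sum_comm]
        ring
    _ ≤ J * ∑ j ∈ range J, 10 * ∑ n ∈ Ioc (U * 2 ^ j) (U * 2 ^ (j + 1)), (n : ℝ) * ‖f n‖ ^ 2 := by
        refine mul_le_mul_of_nonneg_left (sum_le_sum fun j _ => ?_) (Nat.cast_nonneg J)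
        have h1 := mult_large_sieve Q (U * 2 ^ j) (U * 2 ^ j) f
        rw [show U * 2 ^ j + U * 2 ^ j = U * 2 ^ (j + 1) by ring] at h1
        refine h1.trans ?_
        rw [mul_sum, mul_sum]
        refine sum_le_sum fun n hn => ?_
        rw [mem_Ioc] at hn
        have hn' : ((U * 2 ^ j : ℕ) : ℝ) ≤ n := by exact_mod_cast hn.1.le
        have hQ : (Q : ℝ) ^ 2 ≤ ((U * 2 ^ j : ℕ) : ℝ) := by
          have h3 : Q ^ 2 ≤ U * 2 ^ j := hQU.trans (Nat.le_mul_of_pos_right U (by positivity))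
          exact_mod_cast h3
        calc 5 * (((U * 2 ^ j : ℕ) : ℝ) + (Q : ℝ) ^ 2) * ‖f n‖ ^ 2
            ≤ (10 * n) * ‖f n‖ ^ 2 := by
              refine mul_le_mul_of_nonneg_right (by linarith) (by positivity)
          _ = _ := by ring
    _ = _ := by
        rw [← mul_sum, ← sum_dyadic U (fun n => (n : ℝ) * ‖f n‖ ^ 2) J]
        ring

lemma sum_tau_sq_div_le (x : ℕ) : ∑ n ∈ Ioc 0 x, tau n ^ 2 / n ≤ (1 + Real.log x) ^ 4 := by
  have hL : 0 ≤ 1 + Real.log x := by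
    have := Real.log_natCast_nonneg x
    linarith
  have h1 : ∑ n ∈ Ioc 0 x, tau n ^ 2 / n
      = ∑ n ∈ Ioc 0 x, ∑ d ∈ n.divisors, (fun (n : ℕ) (_ : ℕ) => tau n / n) n d := by
    refine sum_congr rfl fun n _ => ?_
    simp only [sum_const, nsmul_eq_mul]
    rw [pow_two, mul_div_assoc]
    rfl
  rw [h1, sum_divisors_swap]
  calc ∑ d ∈ Ioc 0 x, ∑ m ∈ Ioc 0 (x / d), (fun (n : ℕ) (_ : ℕ) => tau n / n) (d * m) d
      ≤ ∑ d ∈ Ioc 0 x, ∑ m ∈ Ioc 0 (x / d), tau d / d * (tau m / m) := by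
        refine sum_le_sum fun d _ => sum_le_sum fun m _ => ?_
        simp only
        rw [div_mul_div_comm]
        push_cast
        exact div_le_div_of_nonneg_right (tau_mul_le d m) (by positivity)
    _ ≤ ∑ d ∈ Ioc 0 x, tau d / d * (1 + Real.log x) ^ 2 := by
        refine sum_le_sum fun d _ => ?_
        rw [← mul_sum]
        refine mul_le_mul_of_nonneg_left ?_ (div_nonneg (tau_nonneg d) (Nat.cast_nonneg d))
        refine (sum_tau_div_le (x / d)).trans ?_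
        have h3 := log_nat_le (Nat.div_le_self x d)
        have h5 : 0 ≤ Real.log ((x / d : ℕ) : ℝ) := Real.log_natCast_nonneg _
        exact pow_le_pow_left₀ (by linarith) (by linarith) 2
    _ = (∑ d ∈ Ioc 0 x, tau d / d) * (1 + Real.log x) ^ 2 := by rw [sum_mul]
    _ ≤ (1 + Real.log x) ^ 2 * (1 + Real.log x) ^ 2 :=
        mul_le_mul_of_nonneg_right (sum_tau_div_le x) (by positivity)
    _ = _ := by ring

lemma sum_log_sq_div_le (x : ℕ) : ∑ n ∈ Ioc 0 x, Real.log n ^ 2 / n ≤ (1 + Real.log x) ^ 3 := by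
  have h0 := Real.log_natCast_nonneg x
  calc ∑ n ∈ Ioc 0 x, Real.log n ^ 2 / n ≤ ∑ n ∈ Ioc 0 x, (1 + Real.log x) ^ 2 * (1 / (n : ℝ)) := by
        refine sum_le_sum fun n hn => ?_
        rw [mem_Ioc] at hn
        rw [div_eq_mul_one_div]
        refine mul_le_mul_of_nonneg_right ?_ (by positivity)
        have h1 := log_nat_le hn.2
        exact pow_le_pow_left₀ (Real.log_natCast_nonneg n) (by linarith) 2
    _ = (1 + Real.log x) ^ 2 * ∑ n ∈ Ioc 0 x, 1 / (n : ℝ) := by rw [mul_sum]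
    _ ≤ (1 + Real.log x) ^ 2 * (1 + Real.log x) :=
        mul_le_mul_of_nonneg_left (harm_le x) (by positivity)
    _ = _ := by ring

end Pool.Agent.helper85.MT
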