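import Pool.Agent.helper71.MT.R3
import Pool.Agent.helper53.MT.CO4

/-!
# R4: quotients of shifted primes (corollary of Maynard-Tao)
-/

namespace Pool.Agent.helper39.MT

open Finset Real

/-- `a (p - c) = b (q - c)` has infinitely many solutions in primes. -/
def SR (c : ℤ) (a b : ℕ) : Prop := InfSol a b (c * ((a : ℤ) - b))

lemma SR.symm {c : ℤ} {a b : ℕ} (h : SR c a b) : SR c b a := by
  have := InfSol.swap71 h
  unfold SR
  have e : -(c * ((a : ℤ) - b)) = c * ((b : ℤ) - a) := by ring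
  rwa [e] at this

lemma SR.div {c : ℤ} {g a b : ℕ} (hg : 0 < g) (h : SR c (g * a) (g * b)) : SR c a b := by
  unfold SR at h ⊢
  have e : c * (((g * a : ℕ) : ℤ) - ((g * b : ℕ) : ℤ)) = (g : ℤ) * (c * ((a : ℤ) - b)) := by
    push_cast; ring
  rw [e] at h
  exact InfSol.div71 hg h

/-- (D): among the quotients of `k` distinct integers prime to `c` one is a quotient of shifted primes
infinitely often. -/
theorem ratio_delta_of
    (two_primes_general : ∃ k : ℕ, 2 ≤ k ∧ ∀ (u : Fin k → ℕ) (e : Fin k → ℤ), (∀ i, 0 < u i) →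
      Function.Injective e →
      (∀ p : ℕ, p.Prime → ∃ n : ℤ, ∀ i, ((p ^ (u i).factorization p : ℕ) : ℤ) ∣ n + e i ∧
        ¬ ((p ^ ((u i).factorization p + 1) : ℕ) : ℤ) ∣ n + e i) →
      ∃ i j, i ≠ j ∧ InfSol (u i) (u j) (e i - e j)) :
    ∃ k : ℕ, 2 ≤ k ∧ ∀ c : ℤ, c ≠ 0 → ∀ u : Fin k → ℕ, Function.Injective u → (∀ i, 0 < u i) →
      (∀ i, IsCoprime (u i : ℤ) c) → ∃ i j, i ≠ j ∧ SR c (u i) (u j) := by
  obtain ⟨k, hk, H⟩ := two_primes_general
  refine ⟨k, hk, fun c hc u huinj hupos huc => ?_⟩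
  have heinj : Function.Injective (fun i => c * (u i : ℤ)) := by
    intro i j h
    have h1 : (u i : ℤ) = u j := mul_left_cancel₀ hc h
    exact huinj (by exact_mod_cast h1)
  have hloc : ∀ p : ℕ, p.Prime → ∃ n : ℤ, ∀ i,
      ((p ^ (u i).factorization p : ℕ) : ℤ) ∣ n + c * (u i : ℤ) ∧
        ¬ ((p ^ ((u i).factorization p + 1) : ℕ) : ℤ) ∣ n + c * (u i : ℤ) := by
    intro p hp
    have hpZ : Prime (p : ℤ) := Nat.prime_iff_prime_int.mp hp
    by_cases hpc : (p : ℤ) ∣ c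
    · refine ⟨1, fun i => ?_⟩
      have hpu : ¬ p ∣ u i := by
        intro h
        exact hpZ.not_isUnit ((huc i).isUnit_of_dvd' (Int.natCast_dvd_natCast.mpr h) hpc)
      rw [Nat.factorization_eq_zero_of_not_dvd hpu]
      refine ⟨by simp, ?_⟩
      intro h
      simp only [zero_add, pow_one] at h
      have h1 : (p : ℤ) ∣ 1 := (Int.dvd_add_left (Dvd.dvd.mul_right hpc _)).mp h
      exact hpZ.not_isUnit (isUnit_of_dvd_one h1)
    · refine ⟨0, fun i => ?_⟩
      rw [zero_add]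
      constructor
      · exact Dvd.dvd.mul_left (Int.natCast_dvd_natCast.mpr (Nat.ordProj_dvd (u i) p)) c
      · intro h
        have hcopc : IsCoprime ((p ^ ((u i).factorization p + 1) : ℕ) : ℤ) c := by
          push_cast
          exact IsCoprime.pow_left ((Prime.coprime_iff_not_dvd hpZ).mpr hpc)
        have h1 := hcopc.dvd_of_dvd_mul_left h
        have h2 : p ^ ((u i).factorization p + 1) ∣ u i := Int.natCast_dvd_natCast.mp h1
        exact Nat.pow_succ_factorization_not_dvd (hupos i).ne' hp h2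
  obtain ⟨i, j, hij, hsol⟩ := H u (fun i => c * (u i : ℤ)) hupos heinj hloc
  refine ⟨i, j, hij, ?_⟩
  unfold SR
  have e : c * ((u i : ℤ) - u j) = c * (u i : ℤ) - c * (u j : ℤ) := by ring
  rw [e]
  exact hsol

/-- A family of integers prime to `c` without good quotients. -/
def Ind (c : ℤ) (X : Finset ℕ) : Prop :=
  (∀ x ∈ X, 0 < x ∧ IsCoprime (x : ℤ) c) ∧ ∀ x ∈ X, ∀ y ∈ X, x ≠ y → ¬ SR c x y

/-- Existence of a maximal family and its consequence. -/
theorem max_family {k : ℕ} {c : ℤ}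
    (h : ∀ u : Fin k → ℕ, Function.Injective u → (∀ i, 0 < u i) →
      (∀ i, IsCoprime (u i : ℤ) c) → ∃ i j, i ≠ j ∧ SR c (u i) (u j)) :
    ∃ X : Finset ℕ, Ind c X ∧ #X < k ∧ ∀ Y : Finset ℕ, Ind c Y → #Y ≤ #X := by
  have hlt : ∀ Y : Finset ℕ, Ind c Y → #Y < k := by
    intro Y hY
    by_contra hcon
    push Not at hcon
    obtain ⟨Z, hZY, hZ⟩ := exists_subset_card_eq hcon
    set u : Fin k → ℕ := fun i => (Z.orderEmbOfFin hZ) i with hu
    have hmem : ∀ i, u i ∈ Y := fun i => hZY (Z.orderEmbOfFin_mem hZ i)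
    have hinj : Function.Injective u := (Z.orderEmbOfFin hZ).injective
    obtain ⟨i, j, hij, hs⟩ := h u hinj (fun i => (hY.1 _ (hmem i)).1) (fun i => (hY.1 _ (hmem i)).2)
    exact hY.2 _ (hmem i) _ (hmem j) (fun h => hij (hinj h)) hs
  set T : Set ℕ := {m | ∃ X : Finset ℕ, Ind c X ∧ #X = m} with hT
  have hne : T.Nonempty := ⟨0, ∅, ⟨by simp, by simp⟩, rfl⟩
  have hbdd : BddAbove T := ⟨k, by
    rintro m ⟨X, hX, rfl⟩
    exact (hlt X hX).le⟩
  obtain ⟨X, hX, hXc⟩ := Nat.sSup_mem hne hbdd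
  refine ⟨X, hX, hlt X hX, fun Y hY => ?_⟩
  rw [hXc]
  exact le_csSup hbdd ⟨Y, hY, rfl⟩

/-- The syndeticity statement. -/
theorem syndetic {k : ℕ} {c : ℤ}
    (h : ∀ u : Fin k → ℕ, Function.Injective u → (∀ i, 0 < u i) →
      (∀ i, IsCoprime (u i : ℤ) c) → ∃ i j, i ≠ j ∧ SR c (u i) (u j)) :
    ∃ (X : Finset ℕ) (P : ℕ), #X < k ∧ 0 < P ∧ IsCoprime (P : ℤ) c ∧ (∀ x ∈ X, 0 < x ∧ x ∣ P) ∧
      ∀ a n : ℕ, 0 < a → 2 ≤ n → Nat.Coprime a P → IsCoprime (a : ℤ) c → Nat.Coprime a n →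
        IsCoprime (n : ℤ) c → ∃ x ∈ X, SR c a (n * (P / x)) := by
  obtain ⟨X, hX, hXk, hmax⟩ := max_family h
  set P := ∏ x ∈ X, x with hP
  have hP0 : 0 < P := prod_pos fun x hx => (hX.1 x hx).1
  have hPc : IsCoprime (P : ℤ) c := by
    rw [hP]
    push_cast
    exact IsCoprime.prod_left fun x hx => (hX.1 x hx).2
  have hdvd : ∀ x ∈ X, x ∣ P := fun x hx => dvd_prod_of_mem _ hx
  refine ⟨X, P, hXk, hP0, hPc, fun x hx => ⟨(hX.1 x hx).1, hdvd x hx⟩, ?_⟩
  intro a n ha hn haP hac han hnc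
  have hnP0 : 0 < n * P := Nat.mul_pos (by omega) hP0
  -- the new element is new
  have hnew : n * P ∉ X.image (fun x => a * x) := by
    rw [mem_image]
    rintro ⟨x, hx, he⟩
    have h1 : a ∣ n * P := ⟨x, he.symm⟩
    have h2 : a ∣ n := haP.dvd_of_dvd_mul_right h1
    have h3 : a = 1 := han.eq_one_of_dvd h2
    have h4 : x ≤ P := Nat.le_of_dvd hP0 (hdvd x hx)
    rw [h3, one_mul] at he
    nlinarith
  by_contra hcon
  push Not at hcon
  have hkey : ∀ x ∈ X, ¬ SR c (a * x) (n * P) := by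
    intro x hx hs
    have hx0 := (hX.1 x hx).1
    refine hcon x hx ?_
    have h1 : n * P = x * (n * (P / x)) := by
      rw [mul_left_comm, Nat.mul_div_cancel' (hdvd x hx)]
    rw [h1, mul_comm a x] at hs
    exact hs.div hx0
  have hY : Ind c (insert (n * P) (X.image (fun x => a * x))) := by
    refine ⟨?_, ?_⟩
    · intro y hy
      rw [mem_insert, mem_image] at hy
      rcases hy with rfl | ⟨x, hx, rfl⟩
      · refine ⟨hnP0, ?_⟩
        push_cast
        exact hnc.mul_left hPc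
      · refine ⟨Nat.mul_pos ha (hX.1 x hx).1, ?_⟩
        push_cast
        exact hac.mul_left (hX.1 x hx).2
    · intro y hy z hz hyz hs
      rw [mem_insert, mem_image] at hy hz
      rcases hy with rfl | ⟨x, hx, rfl⟩
      · rcases hz with rfl | ⟨x', hx', rfl⟩
        · exact hyz rfl
        · exact hkey x' hx' hs.symm
      · rcases hz with rfl | ⟨x', hx', rfl⟩
        · exact hkey x hx hs
        · exact hX.2 x hx x' hx' (fun h => hyz (by rw [h])) (hs.div ha)
  have hcard := hmax _ hY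
  rw [card_insert_of_notMem hnew, card_image_of_injective _
    (fun x y (hxy : a * x = a * y) => Nat.eq_of_mul_eq_mul_left ha hxy)] at hcard
  omega

open Classical in
/-- For fixed `a` (prime to `P` and `c`) a positive lower density of `b`. -/
theorem density_fixed {k : ℕ} {c : ℤ} (hc : c ≠ 0)
    (X : Finset ℕ) (P : ℕ) (hXk : #X < k) (hP0 : 0 < P) (hPc : IsCoprime (P : ℤ) c)
    (hX : ∀ x ∈ X, 0 < x ∧ x ∣ P)
    (H : ∀ a n : ℕ, 0 < a → 2 ≤ n → Nat.Coprime a P → IsCoprime (a : ℤ) c → Nat.Coprime a n →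
        IsCoprime (n : ℤ) c → ∃ x ∈ X, SR c a (n * (P / x)))
    (a : ℕ) (ha : 0 < a) (haP : Nat.Coprime a P) (hac : IsCoprime (a : ℤ) c) :
    ∃ δ : ℝ, 0 < δ ∧ ∃ N₀ : ℕ, ∀ N : ℕ, N₀ ≤ N →
      δ * N ≤ #{b ∈ Icc 1 N | a ≠ b ∧ Nat.Coprime a b ∧ IsCoprime (b : ℤ) c ∧ SR c a b} := by
  set m := a * c.natAbs with hm
  have hc0 : 0 < c.natAbs := Int.natAbs_pos.mpr hc
  have hm0 : 0 < m := Nat.mul_pos ha hc0
  have hk0 : 0 < k := by omega
  have hdiv0 : ∀ x ∈ X, 0 < P / x := fun x hx =>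
    Nat.div_pos (Nat.le_of_dvd hP0 (hX x hx).2) (hX x hx).1
  have hdivP : ∀ x ∈ X, P / x ∣ P := fun x hx => Nat.div_dvd_of_dvd (hX x hx).2
  have hcc : ∀ t : ℕ, IsCoprime ((1 + m * t : ℕ) : ℤ) c := by
    intro t
    have h1 : (c : ℤ) ∣ (m : ℤ) := by
      rw [hm]
      push_cast
      exact Dvd.dvd.mul_left ((dvd_abs c c).mpr dvd_rfl) _
    obtain ⟨d, hd⟩ := h1
    refine ⟨1, -(d * t), ?_⟩
    push_cast
    rw [hd]
    ring
  have hca : ∀ t : ℕ, Nat.Coprime a (1 + m * t) := by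
    intro t
    rw [hm, mul_assoc]
    exact (Nat.coprime_add_mul_left_right a 1 _).mpr (Nat.coprime_one_right a)
  refine ⟨1 / (4 * k * m * P), by positivity, 4 * P * m + 4 * P, ?_⟩
  intro N hN
  set T := N / (2 * m * P) with hT
  set B := {b ∈ Icc 1 N | a ≠ b ∧ Nat.Coprime a b ∧ IsCoprime (b : ℤ) c ∧ SR c a b} with hB
  have hTle : 2 * m * P * T ≤ N := Nat.mul_div_le N (2 * m * P)
  have hex : ∀ t : ℕ, 1 ≤ t → ∃ x ∈ X, SR c a ((1 + m * t) * (P / x)) := by
    intro t ht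
    have h2 : 1 ≤ m * t := Nat.mul_pos hm0 ht
    exact H a (1 + m * t) ha (by omega) haP hac (hca t) (hcc t)
  choose! ξ hξX hξ using hex
  have hcard : #(Icc 1 T) ≤ k * #B := by
    refine le_trans (card_le_mul_card_image_of_maps_to (f := fun t => (1 + m * t) * (P / ξ t))
      (t := B) ?_ #X ?_) (Nat.mul_le_mul_right _ hXk.le)
    · intro t ht
      rw [mem_Icc] at ht
      rw [hB, mem_filter, mem_Icc]
      have hx := hξX t ht.1
      have hcop : Nat.Coprime a ((1 + m * t) * (P / ξ t)) :=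
        Nat.Coprime.mul_right (hca t) (haP.coprime_dvd_right (hdivP _ hx))
      refine ⟨⟨?_, ?_⟩, ?_, hcop, ?_, hξ t ht.1⟩
      · exact Nat.mul_pos (by omega) (hdiv0 _ hx)
      · calc (1 + m * t) * (P / ξ t) ≤ (1 + m * T) * P :=
              Nat.mul_le_mul (by have := Nat.mul_le_mul_left m ht.2; omega) (Nat.div_le_self _ _)
          _ = P + m * P * T := by ring
          _ ≤ N := by
              have h5 : 2 * (m * P * T) ≤ N := by
                calc 2 * (m * P * T) = 2 * m * P * T := by ring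
                  _ ≤ N := hTle
              have h6 : 2 * P ≤ N := by nlinarith
              omega
      · intro he
        rw [← he, Nat.coprime_self] at hcop
        have h8 : 1 + m * t ∣ a := ⟨_, he⟩
        have h9 := Nat.le_of_dvd ha h8
        have h10 : 1 ≤ m * t := Nat.mul_pos hm0 ht.1
        omega
      · push_cast
        refine IsCoprime.mul_left ?_ ?_
        · have := hcc t
          push_cast at this
          exact this
        · have h7 : ((P / ξ t : ℕ) : ℤ) ∣ (P : ℤ) := Int.natCast_dvd_natCast.mpr (hdivP _ hx)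
          have h8 := hPc.of_isCoprime_of_dvd_left h7
          push_cast at h8
          exact h8
    · intro b hb
      refine card_le_card_of_injOn ξ ?_ ?_
      · intro t ht
        rw [mem_coe, mem_filter, mem_Icc] at ht
        exact hξX t ht.1.1
      · intro t ht t' ht' he
        rw [mem_coe, mem_filter, mem_Icc] at ht ht'
        have h1 := ht.2.trans ht'.2.symm
        rw [he] at h1
        have h2 := Nat.eq_of_mul_eq_mul_right (hdiv0 _ (hξX t' ht'.1.1)) h1
        have h3 : m * t = m * t' := by omega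
        exact Nat.eq_of_mul_eq_mul_left hm0 h3
  rw [Nat.card_Icc, Nat.add_sub_cancel] at hcard
  have h1 : (T : ℝ) ≤ k * #B := by exact_mod_cast hcard
  have h2 : (N : ℝ) < 2 * m * P * (T + 1) := by
    have := Nat.lt_mul_div_succ N (show 0 < 2 * m * P by positivity)
    exact_mod_cast this
  have h3 : (4 * P * m : ℝ) ≤ N := by
    have h4 : 4 * P * m ≤ N := by omega
    exact_mod_cast h4
  have hmr : (0 : ℝ) < m := by exact_mod_cast hm0
  have hPr : (0 : ℝ) < P := by exact_mod_cast hP0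
  have hkr : (0 : ℝ) < k := by exact_mod_cast hk0
  rw [div_mul_eq_mul_div, one_mul, div_le_iff₀ (by positivity)]
  have h5 : (N : ℝ) ≤ 4 * m * P * T := by nlinarith
  calc (N : ℝ) ≤ 4 * m * P * T := h5
    _ ≤ 4 * m * P * (k * #B) := mul_le_mul_of_nonneg_left h1 (by positivity)
    _ = _ := by ring

open Classical in
/-- A positive proportion of all pairs. -/
theorem density_pairs {k : ℕ} {c : ℤ} (hc : c ≠ 0)
    (X : Finset ℕ) (P : ℕ) (hXk : #X < k) (hP0 : 0 < P) (hPc : IsCoprime (P : ℤ) c)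
    (hX : ∀ x ∈ X, 0 < x ∧ x ∣ P)
    (H : ∀ a n : ℕ, 0 < a → 2 ≤ n → Nat.Coprime a P → IsCoprime (a : ℤ) c → Nat.Coprime a n →
        IsCoprime (n : ℤ) c → ∃ x ∈ X, SR c a (n * (P / x))) :
    ∃ δ : ℝ, 0 < δ ∧ ∃ N₀ : ℕ, ∀ N : ℕ, N₀ ≤ N →
      δ * (N : ℝ) ^ 2 ≤ #{ab ∈ Icc 1 N ×ˢ Icc 1 N | ab.1 ≠ ab.2 ∧ Nat.Coprime ab.1 ab.2 ∧
        IsCoprime (ab.1 : ℤ) c ∧ IsCoprime (ab.2 : ℤ) c ∧ SR c ab.1 ab.2} := by
  obtain ⟨D, hD⟩ := coprime_tuples 2
  have hc0 : 0 < c.natAbs := Int.natAbs_pos.mpr hc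
  have hk0 : 0 < k := by omega
  set m := P * c.natAbs * D.factorial with hm
  have hm0 : 0 < m := by positivity
  obtain ⟨X₀, hX₀⟩ := hD m hm0 (fun p hp hpD =>
    Dvd.dvd.mul_left ((hp.dvd_factorial).mpr hpD) _)
  have hdiv0 : ∀ x ∈ X, 0 < P / x := fun x hx =>
    Nat.div_pos (Nat.le_of_dvd hP0 (hX x hx).2) (hX x hx).1
  have hdivP : ∀ x ∈ X, P / x ∣ P := fun x hx => Nat.div_dvd_of_dvd (hX x hx).2
  have hcc : ∀ t : ℕ, IsCoprime ((1 + m * t : ℕ) : ℤ) c := by
    intro t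
    have h1 : (c : ℤ) ∣ (m : ℤ) := by
      rw [hm]
      push_cast
      exact Dvd.dvd.mul_right (Dvd.dvd.mul_left ((dvd_abs c c).mpr dvd_rfl) _) _
    obtain ⟨d, hd⟩ := h1
    refine ⟨1, -(d * t), ?_⟩
    push_cast
    rw [hd]
    ring
  have hcP : ∀ t : ℕ, Nat.Coprime (1 + m * t) P := by
    intro t
    have h1 : 1 + m * t = 1 + P * (c.natAbs * D.factorial * t) := by rw [hm]; ring
    rw [h1]
    exact (Nat.coprime_add_mul_left_left 1 P _).mpr (Nat.coprime_one_left P)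
  refine ⟨1 / (2 * k * (4 * m * P) ^ 2), by positivity, (X₀ + 1) * (2 * m * P) + 4 * P * m + 4 * P, ?_⟩
  intro N hN
  set T := N / (2 * m * P) with hT
  set B := {ab ∈ Icc 1 N ×ˢ Icc 1 N | ab.1 ≠ ab.2 ∧ Nat.Coprime ab.1 ab.2 ∧
        IsCoprime (ab.1 : ℤ) c ∧ IsCoprime (ab.2 : ℤ) c ∧ SR c ab.1 ab.2} with hB
  have hTle : 2 * m * P * T ≤ N := Nat.mul_div_le N (2 * m * P)
  have hTX : X₀ ≤ T := by
    rw [hT, Nat.le_div_iff_mul_le (by positivity)]
    nlinarith
  set S := {x ∈ Fintype.piFinset (fun _ : Fin 2 => Icc 1 T) |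
        ∀ i j, i ≠ j → Nat.Coprime (1 + m * x i) (1 + m * x j)} with hS
  have hSc : ((T : ℝ) ^ 2) / 2 ≤ #S := hX₀ T hTX
  have hSmem : ∀ x ∈ S, 1 ≤ x 0 ∧ x 0 ≤ T ∧ 1 ≤ x 1 ∧ x 1 ≤ T ∧
      Nat.Coprime (1 + m * x 0) (1 + m * x 1) := by
    intro x hx
    rw [hS, mem_filter, Fintype.mem_piFinset] at hx
    have h0 := mem_Icc.mp (hx.1 0)
    have h1 := mem_Icc.mp (hx.1 1)
    exact ⟨h0.1, h0.2, h1.1, h1.2, hx.2 0 1 (by decide)⟩
  have hex : ∀ x : Fin 2 → ℕ, x ∈ S → ∃ y ∈ X, SR c (1 + m * x 0) ((1 + m * x 1) * (P / y)) := by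
    intro x hx
    obtain ⟨h1, h2, h3, h4, h5⟩ := hSmem x hx
    have h6 : 1 ≤ m * x 1 := Nat.mul_pos hm0 h3
    exact H (1 + m * x 0) (1 + m * x 1) (by omega) (by omega) (hcP _) (hcc _) h5 (hcc _)
  choose! ξ hξX hξ using hex
  have hle : ∀ t : ℕ, t ≤ T → ∀ d : ℕ, d ≤ P → (1 + m * t) * d ≤ N := by
    intro t ht d hd
    calc (1 + m * t) * d ≤ (1 + m * T) * P :=
          Nat.mul_le_mul (by have := Nat.mul_le_mul_left m ht; omega) hd
      _ = P + m * P * T := by ring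
      _ ≤ N := by
          have h5 : 2 * (m * P * T) ≤ N := by
            calc 2 * (m * P * T) = 2 * m * P * T := by ring
              _ ≤ N := hTle
          have h6 : 2 * P ≤ N := by
            have h7 : 0 ≤ (X₀ + 1) * (2 * m * P) := Nat.zero_le _
            have h8 : 0 ≤ 4 * P * m := Nat.zero_le _
            omega
          omega
  have hcard : #S ≤ k * #B := by
    refine le_trans (card_le_mul_card_image_of_maps_to
      (f := fun x : Fin 2 → ℕ => (1 + m * x 0, (1 + m * x 1) * (P / ξ x)))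
      (t := B) ?_ #X ?_) (Nat.mul_le_mul_right _ hXk.le)
    · intro x hx
      obtain ⟨h1, h2, h3, h4, h5⟩ := hSmem x hx
      rw [hB, mem_filter, mem_product, mem_Icc, mem_Icc]
      have hxX := hξX x hx
      have hcop : Nat.Coprime (1 + m * x 0) ((1 + m * x 1) * (P / ξ x)) :=
        Nat.Coprime.mul_right h5 ((hcP _).coprime_dvd_right (hdivP _ hxX))
      refine ⟨⟨⟨by simp, ?_⟩, ?_, ?_⟩, ?_, hcop, hcc _, ?_, hξ x hx⟩
      · have := hle (x 0) h2 1 hP0
        simpa using this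
      · exact Nat.mul_pos (by omega) (hdiv0 _ hxX)
      · exact hle (x 1) h4 _ (Nat.div_le_self _ _)
      · intro he
        simp only at he
        rw [← he, Nat.coprime_self] at hcop
        have h10 : 1 ≤ m * x 0 := Nat.mul_pos hm0 h1
        omega
      · simp only
        push_cast
        refine IsCoprime.mul_left ?_ ?_
        · have := hcc (x 1)
          push_cast at this
          exact this
        · have h7 : ((P / ξ x : ℕ) : ℤ) ∣ (P : ℤ) := Int.natCast_dvd_natCast.mpr (hdivP _ hxX)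
          have h8 := hPc.of_isCoprime_of_dvd_left h7
          push_cast at h8
          exact h8
    · intro b hb
      refine card_le_card_of_injOn ξ ?_ ?_
      · intro x hx
        rw [mem_coe, mem_filter] at hx
        exact hξX x hx.1
      · intro x hx y hy he
        rw [mem_coe, mem_filter] at hx hy
        have h1 := hx.2.trans hy.2.symm
        rw [Prod.mk.injEq, he] at h1
        have h2 := Nat.eq_of_mul_eq_mul_right (hdiv0 _ (hξX y hy.1)) h1.2
        have h3 : x 0 = y 0 := Nat.eq_of_mul_eq_mul_left hm0 (by omega)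
        have h4 : x 1 = y 1 := Nat.eq_of_mul_eq_mul_left hm0 (by omega)
        funext i
        fin_cases i
        · exact h3
        · exact h4
  have h1 : (#S : ℝ) ≤ k * #B := by exact_mod_cast hcard
  have h2 : (N : ℝ) < 2 * m * P * (T + 1) := by
    have := Nat.lt_mul_div_succ N (show 0 < 2 * m * P by positivity)
    exact_mod_cast this
  have h3 : (4 * P * m : ℝ) ≤ N := by
    have h4 : 4 * P * m ≤ N := by omega
    exact_mod_cast h4
  have hmr : (0 : ℝ) < m := by exact_mod_cast hm0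
  have hPr : (0 : ℝ) < P := by exact_mod_cast hP0
  have hkr : (0 : ℝ) < k := by exact_mod_cast hk0
  rw [div_mul_eq_mul_div, one_mul, div_le_iff₀ (by positivity)]
  have h5 : (N : ℝ) ≤ 4 * m * P * T := by nlinarith
  calc (N : ℝ) ^ 2 ≤ (4 * m * P * T) ^ 2 := pow_le_pow_left₀ (Nat.cast_nonneg N) h5 2
    _ = 2 * (4 * m * P) ^ 2 * ((T : ℝ) ^ 2 / 2) := by ring
    _ ≤ 2 * (4 * m * P) ^ 2 * (k * #B) :=
        mul_le_mul_of_nonneg_left (hSc.trans h1) (by positivity)
    _ = _ := by ring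

end Pool.Agent.helper39.MT
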