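import Pool.Agent.helper85.MT.R4
import Pool.Agent.helper39.MT.Main

/-!
# Quotients of shifted primes

Among any `k` distinct positive rationals some quotient is `(p - c) / (q - c)` for infinitely many
pairs of primes `p, q`.
-/

namespace Pool.Agent.helper85.MT

open Finset Pool.Agent.helper39.MT

theorem ratio_sets : ∃ k : ℕ, ∀ c : ℤ, c ≠ 0 → ∀ r : Fin k → ℚ, (∀ i, 0 < r i) →
    Function.Injective r →
    (∀ i, ∀ p : ℕ, p.Prime → (p : ℤ) ∣ c → padicValRat p (r i) = 0) →
    ∃ i j, i ≠ j ∧ {pq : ℕ × ℕ | pq.1.Prime ∧ pq.2.Prime ∧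
      ((pq.1 : ℚ) - c) * r j = ((pq.2 : ℚ) - c) * r i}.Infinite := by
  obtain ⟨k, hk, H⟩ := ratio_delta_of two_primes_general
  refine ⟨k, fun c hc r hr hinj hval => ?_⟩
  set D : ℕ := ∏ i, (r i).den with hD
  have hDpos : 0 < D := Finset.prod_pos fun i _ => (r i).pos
  have hden : ∀ i, (r i).den ∣ D := fun i => Finset.dvd_prod_of_mem _ (mem_univ i)
  set u : Fin k → ℕ := fun i => (r i).num.toNat * (D / (r i).den) with hu
  have hnum : ∀ i, 0 < (r i).num := fun i => Rat.num_pos.mpr (hr i)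
  have huD : ∀ i, ((u i : ℕ) : ℚ) = D * r i := by
    intro i
    have h1 : (((r i).num.toNat : ℕ) : ℚ) = ((r i).num : ℚ) := by
      have : (((r i).num.toNat : ℕ) : ℤ) = (r i).num := Int.toNat_of_nonneg (hnum i).le
      exact_mod_cast congrArg (Int.cast : ℤ → ℚ) this
    have hd0 : ((r i).den : ℚ) ≠ 0 := by exact_mod_cast (r i).pos.ne'
    simp only [hu]
    rw [Nat.cast_mul, h1, Nat.cast_div (hden i) hd0]
    have h2 : r i = (r i).num / (r i).den := (Rat.num_div_den (r i)).symm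
    conv_rhs => rw [h2]
    field_simp
  have hDq : (0 : ℚ) < D := by exact_mod_cast hDpos
  have hupos : ∀ i, 0 < u i := by
    intro i
    have : (0 : ℚ) < u i := by rw [huD]; exact mul_pos hDq (hr i)
    exact_mod_cast this
  have huinj : Function.Injective u := by
    intro i j h
    have h1 : ((u i : ℕ) : ℚ) = (u j : ℕ) := by rw [h]
    rw [huD, huD] at h1
    exact hinj (mul_left_cancel₀ hDq.ne' h1)
  -- prime to `c`
  have hpd : ∀ i, ∀ p : ℕ, p.Prime → (p : ℤ) ∣ c → ¬ p ∣ (r i).den ∧ ¬ (p : ℤ) ∣ (r i).num := by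
    intro i p hp hpc
    have := Fact.mk hp
    have h1 := hval i p hp hpc
    have hcop := (r i).reduced
    by_cases hdd : p ∣ (r i).den
    · exfalso
      have hnn : ¬ (p : ℤ) ∣ (r i).num := by
        intro hn
        have h2 : p ∣ (r i).num.natAbs := Int.natCast_dvd.mp hn
        exact hp.one_lt.ne' (Nat.dvd_one.mp (hcop.gcd_eq_one ▸ Nat.dvd_gcd h2 hdd))
      rw [padicValRat_def, padicValInt.eq_zero_of_not_dvd hnn] at h1
      have h3 := one_le_padicValNat_of_dvd (r i).pos.ne' hdd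
      omega
    · refine ⟨hdd, fun hn => ?_⟩
      rw [padicValRat_def, padicValNat.eq_zero_of_not_dvd hdd] at h1
      have h3 : 1 ≤ padicValInt p (r i).num := by
        rw [padicValInt]
        exact one_le_padicValNat_of_dvd (by
          have := hnum i
          omega) (Int.natCast_dvd.mp hn)
      omega
  have huc : ∀ i, IsCoprime (u i : ℤ) c := by
    intro i
    rw [Int.isCoprime_iff_gcd_eq_one]
    by_contra hne
    obtain ⟨p, hp, hpd'⟩ := Nat.exists_prime_and_dvd hne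
    have h1 : (p : ℤ) ∣ (u i : ℤ) := (Int.natCast_dvd_natCast.mpr hpd').trans (Int.gcd_dvd_left _ _)
    have h2 : (p : ℤ) ∣ c := (Int.natCast_dvd_natCast.mpr hpd').trans (Int.gcd_dvd_right _ _)
    have h3 : p ∣ (r i).num.toNat * (D / (r i).den) := Int.natCast_dvd_natCast.mp h1
    rcases hp.dvd_mul.mp h3 with h4 | h4
    · have h5 : (p : ℤ) ∣ (r i).num := by
        have h6 := Int.natCast_dvd_natCast.mpr h4
        rwa [Int.toNat_of_nonneg (hnum i).le] at h6
      exact (hpd i p hp h2).2 h5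
    · have h5 : p ∣ D := h4.trans (Nat.div_dvd_of_dvd (hden i))
      rw [hD] at h5
      obtain ⟨j, _, hj⟩ := (hp.prime.dvd_finsetProd_iff _).mp h5
      exact (hpd j p hp h2).1 hj
  obtain ⟨i, j, hij, hs⟩ := H c hc u huinj hupos huc
  refine ⟨j, i, hij.symm, ?_⟩
  unfold SR InfSol at hs
  refine hs.mono ?_
  rintro ⟨p, q⟩ ⟨hp, hq, he⟩
  refine ⟨hp, hq, ?_⟩
  simp only at he ⊢
  have he' : ((u i : ℕ) : ℚ) * p - (u j : ℕ) * q = c * (((u i : ℕ) : ℚ) - (u j : ℕ)) := by
    exact_mod_cast congrArg (Int.cast : ℤ → ℚ) he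
  rw [huD, huD] at he'
  have h1 : (D : ℚ) * (((p : ℚ) - c) * r i) = D * (((q : ℚ) - c) * r j) := by linarith
  exact mul_left_cancel₀ hDq.ne' h1

end Pool.Agent.helper85.MT
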