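import Pool.Agent.helper85.MT.TypeOne
import Pool.Agent.helper85.MT.Dyad

/-!
# Separation of variables in the bilinear part
-/

namespace Pool.Agent.helper85.MT

open Finset Real ArithmeticFunction Pool.Agent.helper85.BVP Pool.Agent.helper39.MT MeasureTheory

/-- `e(ξ t)`. -/
noncomputable def ee (ξ t : ℝ) : ℂ := Complex.exp (2 * Real.pi * (ξ * t : ℝ) * Complex.I)

lemma norm_ee (ξ t : ℝ) : ‖ee ξ t‖ = 1 := by
  have : ee ξ t = Complex.exp ((2 * Real.pi * (ξ * t) : ℝ) * Complex.I) := by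
    unfold ee
    congr 1
    push_cast
    ring
  rw [this, Complex.norm_exp_ofReal_mul_I]

lemma ee_add (ξ s t : ℝ) : ee ξ (s + t) = ee ξ s * ee ξ t := by
  unfold ee
  rw [← Complex.exp_add]
  congr 1
  push_cast
  ring

lemma ee_cont (t : ℝ) : Continuous (fun ξ => ee ξ t) := by
  unfold ee
  fun_prop

/-- The Dirichlet polynomials. -/
noncomputable def PP (f : ℕ → ℝ) (N : ℕ) (L ξ : ℝ) {r : ℕ} (χ : DirichletCharacter ℂ r) : ℂ :=
  ∑ m ∈ Ioc 0 N, (((f m / m : ℝ) : ℂ) * ee ξ (Real.log m / L)) * χ m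

lemma PP_cont (f : ℕ → ℝ) (N : ℕ) (L : ℝ) {r : ℕ} (χ : DirichletCharacter ℂ r) :
    Continuous (fun ξ => PP f N L ξ χ) := by
  unfold PP
  refine continuous_finsetSum _ fun m _ => ?_
  exact (continuous_const.mul (ee_cont _)).mul continuous_const

lemma PP_norm_le (f : ℕ → ℝ) (N : ℕ) (L ξ : ℝ) {r : ℕ} (χ : DirichletCharacter ℂ r) :
    ‖PP f N L ξ χ‖ ≤ ∑ m ∈ Ioc 0 N, |f m / m| := by
  unfold PP
  refine (norm_sum_le _ _).trans (sum_le_sum fun m _ => ?_)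
  rw [norm_mul, norm_mul, norm_ee, mul_one, Complex.norm_real, Real.norm_eq_abs]
  exact mul_le_of_le_one_right (abs_nonneg _) (DirichletCharacter.norm_le_one χ _)

lemma int_ee {Vh : ℝ → ℂ} (hc : Continuous Vh) (hi : Integrable Vh) (t : ℝ) :
    Integrable (fun ξ => ee ξ t * Vh ξ) := by
  refine hi.norm.mono' ((ee_cont t).mul hc).aestronglyMeasurable ?_
  refine Filter.Eventually.of_forall fun ξ => ?_
  rw [norm_mul, norm_ee, one_mul]

/-- **Separation of variables.** -/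
lemma sep {Vh : ℝ → ℂ} (hc : Continuous Vh) (hi : Integrable Vh)
    (hV : ∀ u : ℝ, (V u : ℂ) = ∫ ξ : ℝ, ee ξ u * Vh ξ) {L a : ℝ} (hL : 0 < L)
    {r : ℕ} (χ : DirichletCharacter ℂ r) (U : ℕ) :
    S4 χ L a U = ∫ ξ : ℝ, PP (alpha U) (NN L a) L ξ χ * PP (beta U) (NN L a) L ξ χ
      * (ee ξ (-(a / L)) * Vh ξ) := by
  set N := NN L a with hN
  have h1 : S4 χ L a U = ∑ m ∈ Ioc 0 N, ∑ n ∈ Ioc 0 N,
      (((alpha U m / m : ℝ) : ℂ) * χ m) * (((beta U n / n : ℝ) : ℂ) * χ n)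
        * (V ((Real.log m + Real.log n - a) / L) : ℂ) := by
    rw [S4, ← hN]
    refine sum_congr rfl fun m hm => ?_
    rw [mem_Ioc] at hm
    have hm' : (0 : ℝ) < m := by exact_mod_cast hm.1
    have h2 : ∑ n ∈ Ioc 0 (N / m), (beta U n : ℂ) * (χ ((m * n : ℕ) : ZMod r) * (wt L a (m * n) : ℂ))
        = ∑ n ∈ Ioc 0 N, (beta U n : ℂ) * (χ ((m * n : ℕ) : ZMod r) * (wt L a (m * n) : ℂ)) := by
      refine sum_subset (Ioc_subset_Ioc_right (Nat.div_le_self N m)) ?_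
      intro n hn hn'
      rw [mem_Ioc] at hn hn'
      have h3 : N / m < n := by
        by_contra h
        push Not at h
        exact hn' ⟨hn.1, h⟩
      have h4 : N < m * n := by
        rw [Nat.div_lt_iff_lt_mul hm.1] at h3
        rwa [mul_comm]
      rw [wt_right hL (by rw [← hN]; exact h4)]
      simp
    rw [h2, mul_sum]
    refine sum_congr rfl fun n hn => ?_
    rw [mem_Ioc] at hn
    have hn' : (0 : ℝ) < n := by exact_mod_cast hn.1
    rw [wt]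
    push_cast
    rw [Real.log_mul hm'.ne' hn'.ne', map_mul]
    have hm2 : (m : ℂ) ≠ 0 := by exact_mod_cast hm'.ne'
    have hn2 : (n : ℂ) ≠ 0 := by exact_mod_cast hn'.ne'
    field_simp
  rw [h1]
  have h5 : ∀ m ∈ Ioc 0 N, ∑ n ∈ Ioc 0 N,
      (((alpha U m / m : ℝ) : ℂ) * χ m) * (((beta U n / n : ℝ) : ℂ) * χ n)
        * (V ((Real.log m + Real.log n - a) / L) : ℂ)
      = ∫ ξ : ℝ, ∑ n ∈ Ioc 0 N, (((alpha U m / m : ℝ) : ℂ) * χ m) * (((beta U n / n : ℝ) : ℂ) * χ n)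
        * (ee ξ ((Real.log m + Real.log n - a) / L) * Vh ξ) := by
    intro m _
    rw [integral_finsetSum]
    · refine sum_congr rfl fun n _ => ?_
      rw [hV, integral_const_mul]
    · intro n _
      exact (int_ee hc hi _).const_mul _
  rw [sum_congr rfl h5, ← integral_finsetSum]
  · refine integral_congr_ae (Filter.Eventually.of_forall fun ξ => ?_)
    simp only [PP]
    rw [sum_mul_sum, sum_mul]
    refine sum_congr rfl fun m _ => ?_
    rw [sum_mul]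
    refine sum_congr rfl fun n _ => ?_
    have e : (Real.log m + Real.log n - a) / L = Real.log m / L + (Real.log n / L + -(a / L)) := by
      ring
    rw [e, ee_add, ee_add]
    ring
  · intro m _
    refine integrable_finsetSum _ fun n _ => ?_
    exact (int_ee hc hi _).const_mul _

lemma sum_norm_integral_le {ι : Type*} (S : Finset ι) (w : ι → ℝ) (hw : ∀ i ∈ S, 0 ≤ w i)
    (F : ι → ℝ → ℂ) (hF : ∀ i ∈ S, Integrable (F i)) (g : ℝ → ℝ) (hg : Integrable g)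
    (h : ∀ ξ, ∑ i ∈ S, w i * ‖F i ξ‖ ≤ g ξ) : ∑ i ∈ S, w i * ‖∫ ξ, F i ξ‖ ≤ ∫ ξ, g ξ := by
  calc ∑ i ∈ S, w i * ‖∫ ξ, F i ξ‖ ≤ ∑ i ∈ S, ∫ ξ, w i * ‖F i ξ‖ := by
        refine sum_le_sum fun i hi => ?_
        rw [integral_const_mul]
        exact mul_le_mul_of_nonneg_left (norm_integral_le_integral_norm _) (hw i hi)
    _ = ∫ ξ, ∑ i ∈ S, w i * ‖F i ξ‖ := by
        rw [integral_finsetSum]
        intro i hi
        exact (hF i hi).norm.const_mul _
    _ ≤ ∫ ξ, g ξ := by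
        refine integral_mono ?_ hg h
        refine integrable_finsetSum _ fun i hi => ?_
        exact (hF i hi).norm.const_mul _

lemma cs_weighted {ι : Type*} (S : Finset ι) (w x y : ι → ℝ) (hw : ∀ i ∈ S, 0 ≤ w i) (X Y : ℝ)
    (hX : ∑ i ∈ S, w i * x i ^ 2 ≤ X) (hY : ∑ i ∈ S, w i * y i ^ 2 ≤ Y) :
    ∑ i ∈ S, w i * (x i * y i) ≤ √(X * Y) := by
  have h1 := sum_mul_sq_le_sq_mul_sq S (fun i => √(w i) * x i) (fun i => √(w i) * y i)
  have e1 : ∑ i ∈ S, √(w i) * x i * (√(w i) * y i) = ∑ i ∈ S, w i * (x i * y i) := by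
    refine sum_congr rfl fun i hi => ?_
    have := Real.mul_self_sqrt (hw i hi)
    calc √(w i) * x i * (√(w i) * y i) = (√(w i) * √(w i)) * (x i * y i) := by ring
      _ = _ := by rw [this]
  have e2 : ∑ i ∈ S, (√(w i) * x i) ^ 2 = ∑ i ∈ S, w i * x i ^ 2 := by
    refine sum_congr rfl fun i hi => ?_
    rw [mul_pow, Real.sq_sqrt (hw i hi)]
  have e3 : ∑ i ∈ S, (√(w i) * y i) ^ 2 = ∑ i ∈ S, w i * y i ^ 2 := by
    refine sum_congr rfl fun i hi => ?_
    rw [mul_pow, Real.sq_sqrt (hw i hi)]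
  rw [e1, e2, e3] at h1
  have hX0 : 0 ≤ ∑ i ∈ S, w i * x i ^ 2 := sum_nonneg fun i hi => mul_nonneg (hw i hi) (sq_nonneg _)
  have hY0 : 0 ≤ ∑ i ∈ S, w i * y i ^ 2 := sum_nonneg fun i hi => mul_nonneg (hw i hi) (sq_nonneg _)
  refine Real.le_sqrt_of_sq_le (h1.trans ?_)
  exact mul_le_mul hX hY hY0 (hX0.trans hX)

open Classical in
/-- the large sieve for `PP`. -/
lemma PP_ls (f : ℕ → ℝ) (N Q U J : ℕ) (L ξ : ℝ) (hQU : Q ^ 2 ≤ U) (hNJ : N ≤ U * 2 ^ J)
    (hf : ∀ n ≤ U, f n = 0) :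
    ∑ r ∈ Icc 1 Q, (r : ℝ) / Nat.totient r * ∑ χ : DirichletCharacter ℂ r with χ.IsPrimitive,
        ‖PP f N L ξ χ‖ ^ 2 ≤ 10 * J * ∑ n ∈ Ioc 0 N, f n ^ 2 / n := by
  set g : ℕ → ℂ := fun m => if m ≤ N then ((f m / m : ℝ) : ℂ) * ee ξ (Real.log m / L) else 0 with hg
  have h1 : ∀ (r : ℕ) (χ : DirichletCharacter ℂ r),
      PP f N L ξ χ = ∑ n ∈ Ioc U (U * 2 ^ J), g n * χ n := by
    intro r χ
    have e1 : PP f N L ξ χ = ∑ n ∈ Ioc 0 (U * 2 ^ J), g n * χ n := by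
      have e2 : PP f N L ξ χ = ∑ n ∈ Ioc 0 N, g n * χ n := by
        unfold PP
        refine sum_congr rfl fun n hn => ?_
        rw [mem_Ioc] at hn
        simp only [hg]
        rw [if_pos hn.2]
      rw [e2]
      refine sum_subset (Ioc_subset_Ioc_right hNJ) ?_
      intro n hn hn'
      rw [mem_Ioc] at hn hn'
      simp only [hg]
      rw [if_neg (by omega), zero_mul]
    rw [e1]
    symm
    refine sum_subset (Ioc_subset_Ioc_left (Nat.zero_le U)) ?_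
    intro n hn hn'
    rw [mem_Ioc] at hn hn'
    simp only [hg]
    rw [hf n (by omega)]
    simp
  simp_rw [h1]
  refine (ls_dyadic Q U J hQU g).trans ?_
  refine mul_le_mul_of_nonneg_left ?_ (by positivity)
  have h2 : ∀ n ∈ Ioc U (U * 2 ^ J), (n : ℝ) * ‖g n‖ ^ 2 = if n ≤ N then f n ^ 2 / n else 0 := by
    intro n hn
    rw [mem_Ioc] at hn
    have hn' : (0 : ℝ) < n := by exact_mod_cast lt_of_le_of_lt (Nat.zero_le _) hn.1
    simp only [hg]
    split_ifs with h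
    · rw [norm_mul, norm_ee, mul_one, Complex.norm_real, Real.norm_eq_abs, sq_abs]
      field_simp
    · simp
  rw [sum_congr rfl h2, ← sum_filter]
  refine sum_le_sum_of_subset_of_nonneg ?_ (fun n _ _ => by positivity)
  intro n hn
  rw [mem_filter, mem_Ioc] at hn
  rw [mem_Ioc]
  exact ⟨lt_of_le_of_lt (Nat.zero_le _) hn.1.1, hn.2⟩

open Classical in
/-- the bilinear part on average. -/
theorem typeII_wt : ∃ C : ℝ, 0 ≤ C ∧ ∀ (L a : ℝ), 0 < L → ∀ (Q U J : ℕ), Q ^ 2 ≤ U →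
    NN L a ≤ U * 2 ^ J →
    ∑ r ∈ Icc 1 Q, (r : ℝ) / Nat.totient r * ∑ χ : DirichletCharacter ℂ r with χ.IsPrimitive,
        ‖S4 χ L a U‖ ≤ C * (J * √((1 + Real.log (NN L a)) ^ 7)) := by
  obtain ⟨Vh, hc, hi, hV⟩ := V_fourier
  refine ⟨10 * ∫ ξ, ‖Vh ξ‖, mul_nonneg (by norm_num) (integral_nonneg fun _ => norm_nonneg _), ?_⟩
  intro L a hL Q U J hQU hNJ
  set N := NN L a with hN
  have hlog := Real.log_natCast_nonneg N
  set S : Finset (Σ r : ℕ, DirichletCharacter ℂ r) :=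
    (Icc 1 Q).sigma (fun r => {χ : DirichletCharacter ℂ r | χ.IsPrimitive}) with hS
  have hsig : ∀ G : (r : ℕ) → DirichletCharacter ℂ r → ℝ,
      ∑ r ∈ Icc 1 Q, (r : ℝ) / Nat.totient r * ∑ χ : DirichletCharacter ℂ r with χ.IsPrimitive, G r χ
        = ∑ i ∈ S, (i.1 : ℝ) / Nat.totient i.1 * G i.1 i.2 := by
    intro G
    rw [hS, sum_sigma]
    refine sum_congr rfl fun r _ => ?_
    rw [mul_sum]
  rw [hsig (fun r χ => ‖S4 χ L a U‖)]
  have hint : ∀ (r : ℕ) (χ : DirichletCharacter ℂ r), Integrable (fun ξ : ℝ =>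
      PP (alpha U) N L ξ χ * PP (beta U) N L ξ χ * (ee ξ (-(a / L)) * Vh ξ)) := by
    intro r χ
    have h1 := ((int_ee hc hi (-(a / L))).norm.const_mul
      ((∑ m ∈ Ioc 0 N, |alpha U m / m|) * (∑ m ∈ Ioc 0 N, |beta U m / m|)))
    refine h1.mono' ?_ ?_
    · exact (((PP_cont _ _ _ χ).mul (PP_cont _ _ _ χ)).mul ((ee_cont _).mul hc)).aestronglyMeasurable
    · refine Filter.Eventually.of_forall fun ξ => ?_
      rw [norm_mul, norm_mul]
      refine mul_le_mul_of_nonneg_right ?_ (norm_nonneg _)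
      exact mul_le_mul (PP_norm_le _ _ _ _ _) (PP_norm_le _ _ _ _ _) (norm_nonneg _)
        (sum_nonneg fun _ _ => abs_nonneg _)
  have h1 : ∑ i ∈ S, (i.1 : ℝ) / Nat.totient i.1 * ‖S4 i.2 L a U‖
      = ∑ i ∈ S, (i.1 : ℝ) / Nat.totient i.1 * ‖∫ ξ : ℝ, PP (alpha U) N L ξ i.2
        * PP (beta U) N L ξ i.2 * (ee ξ (-(a / L)) * Vh ξ)‖ := by
    refine sum_congr rfl fun i _ => ?_
    rw [sep hc hi hV hL]
  rw [h1]
  have h2 := sum_norm_integral_le S (fun i => (i.1 : ℝ) / Nat.totient i.1)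
    (fun i _ => by positivity)
    (fun i ξ => PP (alpha U) N L ξ i.2 * PP (beta U) N L ξ i.2 * (ee ξ (-(a / L)) * Vh ξ))
    (fun i _ => hint i.1 i.2)
    (fun ξ => (10 * (J * √((1 + Real.log N) ^ 7))) * ‖Vh ξ‖) (hi.norm.const_mul _) ?_
  · refine h2.trans (le_of_eq ?_)
    rw [integral_const_mul]
    ring
  · intro ξ
    have e : ∀ i ∈ S, (i.1 : ℝ) / Nat.totient i.1
        * ‖PP (alpha U) N L ξ i.2 * PP (beta U) N L ξ i.2 * (ee ξ (-(a / L)) * Vh ξ)‖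
        = ((i.1 : ℝ) / Nat.totient i.1
        * (‖PP (alpha U) N L ξ i.2‖ * ‖PP (beta U) N L ξ i.2‖)) * ‖Vh ξ‖ := by
      intro i _
      rw [norm_mul, norm_mul, norm_mul, norm_ee, one_mul]
      ring
    rw [sum_congr rfl e, ← sum_mul]
    refine mul_le_mul_of_nonneg_right ?_ (norm_nonneg _)
    have hA := PP_ls (alpha U) N Q U J L ξ hQU hNJ (fun n hn => by rw [alpha_apply, if_pos hn])
    have hB := PP_ls (beta U) N Q U J L ξ hQU hNJ (fun n hn => beta_eq_zero U n hn)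
    rw [hsig (fun r χ => ‖PP (alpha U) N L ξ χ‖ ^ 2)] at hA
    rw [hsig (fun r χ => ‖PP (beta U) N L ξ χ‖ ^ 2)] at hB
    have hA2 : ∑ n ∈ Ioc 0 N, alpha U n ^ 2 / n ≤ (1 + Real.log N) ^ 3 := by
      refine le_trans (sum_le_sum fun n _ => ?_) (sum_log_sq_div_le N)
      refine div_le_div_of_nonneg_right ?_ (Nat.cast_nonneg n)
      exact pow_le_pow_left₀ (alpha_nonneg U n) (alpha_le_log U n) 2
    have hB2 : ∑ n ∈ Ioc 0 N, beta U n ^ 2 / n ≤ (1 + Real.log N) ^ 4 := by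
      refine le_trans (sum_le_sum fun n _ => ?_) (sum_tau_sq_div_le N)
      refine div_le_div_of_nonneg_right ?_ (Nat.cast_nonneg n)
      rw [← sq_abs]
      exact pow_le_pow_left₀ (abs_nonneg _) (abs_beta_le U n) 2
    have h3 := cs_weighted S (fun i => (i.1 : ℝ) / Nat.totient i.1)
      (fun i => ‖PP (alpha U) N L ξ i.2‖) (fun i => ‖PP (beta U) N L ξ i.2‖)
      (fun i _ => by positivity) (10 * J * (1 + Real.log N) ^ 3) (10 * J * (1 + Real.log N) ^ 4)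
      (hA.trans (mul_le_mul_of_nonneg_left hA2 (by positivity)))
      (hB.trans (mul_le_mul_of_nonneg_left hB2 (by positivity)))
    refine h3.trans (le_of_eq ?_)
    have e2 : 10 * (J : ℝ) * (1 + Real.log N) ^ 3 * (10 * J * (1 + Real.log N) ^ 4)
        = (10 * J) ^ 2 * (1 + Real.log N) ^ 7 := by ring
    rw [e2, Real.sqrt_mul (by positivity), Real.sqrt_sq (by positivity)]
    ring

end Pool.Agent.helper85.MT
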